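import Mathlib
import Pool.Agent.Y353.FD.Decay

/-!
Project FP (helper353): equidistribution modulo a fixed number, values without small prime factors.
-/

set_option autoImplicit false

namespace Pool.Agent.Y353.FP

open Finset Filter Topology
open Pool.Agent.Helper112 (ee ls_ee_zero ls_ee_add ls_ee_int ls_conj_ee ls_norm_ee)
open Pool.Agent.Y353.FD

theorem wv_eq {k m : ℕ} [NeZero m] (A b : Fin k → ℤ) :
    wv A b m = ∏ l, ZMod.stdAddChar ((b l : ZMod m) * (A l : ZMod m)) := by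
  unfold wv
  rw [ee_sum]
  apply prod_congr rfl
  intro l _
  have h1 : ((b l : ZMod m) * (A l : ZMod m)) = ((b l * A l : ℤ) : ZMod m) := by push_cast; rfl
  rw [h1, ZMod.stdAddChar_coe]
  unfold ee
  congr 1
  push_cast
  ring

theorem orth {k m : ℕ} [NeZero m] (c : Fin k → ZMod m) :
    ∑ b : Fin k → ZMod m, ∏ l, (ZMod.stdAddChar (b l * c l) : ℂ) =
      if c = 0 then (m : ℂ) ^ k else 0 := by
  classical
  have h1 : ∑ b : Fin k → ZMod m, ∏ l, (ZMod.stdAddChar (b l * c l) : ℂ) =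
      ∏ l, ∑ x : ZMod m, (ZMod.stdAddChar (x * c l) : ℂ) := by
    rw [prod_univ_sum, Fintype.piFinset_univ]
  rw [h1]
  have h2 : ∀ l, ∑ x : ZMod m, (ZMod.stdAddChar (x * c l) : ℂ) = if c l = 0 then (m : ℂ) else 0 := by
    intro l
    rw [AddChar.sum_mulShift _ (ZMod.isPrimitive_stdAddChar m)]
    rw [ZMod.card]
    split_ifs <;> simp
  rw [prod_congr rfl (fun l _ => h2 l)]
  split_ifs with h
  · rw [h]; simp
  · obtain ⟨l, hl⟩ : ∃ l, c l ≠ 0 := by
      by_contra hcon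
      push Not at hcon
      exact h (funext hcon)
    apply prod_eq_zero (mem_univ l)
    rw [if_neg hl]

theorem norm_std {m : ℕ} [NeZero m] (x : ZMod m) : ‖(ZMod.stdAddChar x : ℂ)‖ = 1 :=
  AddChar.norm_apply _ _

open Classical in
theorem count_res {k m : ℕ} [NeZero m] {Ω : Type*} (S : Finset Ω) (F : Ω → Fin k → ℤ) {δ : ℝ}
    (hδ : 0 ≤ δ)
    (hFD : ∀ b : Fin k → ℤ, (¬ ∀ i, (m : ℤ) ∣ b i) → ‖∑ ω ∈ S, wv (F ω) b m‖ ≤ δ * S.card)
    (r : Fin k → ZMod m) :
    ((S.filter (fun ω => (fun l => ((F ω l : ℤ) : ZMod m)) = r)).card : ℝ) ≤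
      (1 / (m : ℝ) ^ k + δ) * S.card := by
  have hm : (0 : ℝ) < m := by exact_mod_cast NeZero.pos m
  have h1 : (((S.filter (fun ω => (fun l => ((F ω l : ℤ) : ZMod m)) = r)).card : ℝ) * (m : ℝ) ^ k : ℝ) =
      (∑ b : Fin k → ZMod m, (∏ l, (ZMod.stdAddChar (b l * (-r l)) : ℂ)) *
        ∑ ω ∈ S, ∏ l, (ZMod.stdAddChar (b l * ((F ω l : ℤ) : ZMod m)) : ℂ)) := by
    have e1 : ∀ b : Fin k → ZMod m, (∏ l, (ZMod.stdAddChar (b l * (-r l)) : ℂ)) *
        ∑ ω ∈ S, ∏ l, (ZMod.stdAddChar (b l * ((F ω l : ℤ) : ZMod m)) : ℂ) =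
        ∑ ω ∈ S, ∏ l, (ZMod.stdAddChar (b l * (((F ω l : ℤ) : ZMod m) - r l)) : ℂ) := by
      intro b
      rw [mul_sum]
      refine sum_congr rfl fun ω _ => ?_
      rw [← prod_mul_distrib]
      refine prod_congr rfl fun l _ => ?_
      rw [← AddChar.map_add_eq_mul]
      congr 1
      ring
    rw [sum_congr rfl (fun b _ => e1 b), sum_comm]
    have e2 : ∀ ω ∈ S, ∑ b : Fin k → ZMod m,
        ∏ l, (ZMod.stdAddChar (b l * (((F ω l : ℤ) : ZMod m) - r l)) : ℂ) =
        if (fun l => ((F ω l : ℤ) : ZMod m)) = r then (m : ℂ) ^ k else 0 := by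
      intro ω _
      rw [orth (fun l => ((F ω l : ℤ) : ZMod m) - r l)]
      congr 1
      rw [eq_iff_iff]
      constructor
      · intro h
        funext l
        have := congrFun h l
        simpa [sub_eq_zero] using this
      · intro h
        funext l
        have := congrFun h l
        simp [this]
    rw [sum_congr rfl e2, ← sum_filter, sum_const, nsmul_eq_mul]
    push_cast
    ring
  have h2 : ∀ b : Fin k → ZMod m, ‖(∏ l, (ZMod.stdAddChar (b l * (-r l)) : ℂ)) *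
        ∑ ω ∈ S, ∏ l, (ZMod.stdAddChar (b l * ((F ω l : ℤ) : ZMod m)) : ℂ)‖ ≤
        (if b = 0 then (S.card : ℝ) else 0) + δ * S.card := by
    intro b
    rw [norm_mul, norm_prod, prod_congr rfl (fun l _ => norm_std _), prod_const_one, one_mul]
    split_ifs with hb
    · have : ‖∑ ω ∈ S, ∏ l, (ZMod.stdAddChar (b l * ((F ω l : ℤ) : ZMod m)) : ℂ)‖ ≤ S.card := by
        refine (norm_sum_le _ _).trans ?_
        have : ∀ ω ∈ S, ‖∏ l, (ZMod.stdAddChar (b l * ((F ω l : ℤ) : ZMod m)) : ℂ)‖ ≤ 1 := by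
          intro ω _
          rw [norm_prod, prod_congr rfl (fun l _ => norm_std _), prod_const_one]
        refine (sum_le_sum this).trans ?_
        simp
      have : 0 ≤ δ * S.card := by positivity
      linarith
    · rw [zero_add]
      set b' : Fin k → ℤ := fun l => ((b l).val : ℤ) with hb'
      have hcast : ∀ l, ((b' l : ℤ) : ZMod m) = b l := by
        intro l
        rw [hb']
        simp
      have h3 := hFD b' (by
        intro hall
        apply hb
        funext l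
        have := (ZMod.intCast_zmod_eq_zero_iff_dvd (b' l) m).2 (hall l)
        rw [hcast] at this
        simpa using this)
      refine le_trans (le_of_eq ?_) h3
      congr 1
      refine sum_congr rfl fun ω _ => ?_
      rw [wv_eq]
      refine prod_congr rfl fun l _ => ?_
      rw [hcast]
  have h3 : ((S.filter (fun ω => (fun l => ((F ω l : ℤ) : ZMod m)) = r)).card : ℝ) * (m : ℝ) ^ k ≤
      S.card + (m : ℝ) ^ k * (δ * S.card) := by
    have e1 : ‖(((S.filter (fun ω => (fun l => ((F ω l : ℤ) : ZMod m)) = r)).card : ℝ) *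
        (m : ℝ) ^ k : ℂ)‖ ≤ S.card + (m : ℝ) ^ k * (δ * S.card) := by
      have e0 : (((S.filter (fun ω => (fun l => ((F ω l : ℤ) : ZMod m)) = r)).card : ℝ) *
        (m : ℝ) ^ k : ℂ) = (((S.filter (fun ω => (fun l => ((F ω l : ℤ) : ZMod m)) = r)).card : ℝ) *
          (m : ℝ) ^ k : ℝ) := by push_cast; rfl
      rw [e0, h1]
      refine (norm_sum_le _ _).trans ((sum_le_sum fun b _ => h2 b).trans ?_)
      rw [sum_add_distrib, sum_ite_eq' univ (0 : Fin k → ZMod m), if_pos (mem_univ _), sum_const,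
        nsmul_eq_mul, card_univ, Fintype.card_fun, Fintype.card_fin, ZMod.card]
      push_cast
      exact le_rfl
    rwa [norm_mul, Complex.norm_real, Real.norm_of_nonneg (Nat.cast_nonneg _), norm_pow,
      Complex.norm_real, Real.norm_of_nonneg hm.le] at e1
  have hmk : (0 : ℝ) < (m : ℝ) ^ k := by positivity
  rw [← le_div_iff₀ hmk] at h3
  refine h3.trans (le_of_eq ?_)
  field_simp

open Classical in
theorem count_set {k m : ℕ} [NeZero m] {Ω : Type*} (S : Finset Ω) (F : Ω → Fin k → ℤ) {δ : ℝ}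
    (hδ : 0 ≤ δ)
    (hFD : ∀ b : Fin k → ℤ, (¬ ∀ i, (m : ℤ) ∣ b i) → ‖∑ ω ∈ S, wv (F ω) b m‖ ≤ δ * S.card)
    (T : Finset (Fin k → ZMod m)) :
    ((S.filter (fun ω => (fun l => ((F ω l : ℤ) : ZMod m)) ∈ T)).card : ℝ) ≤
      T.card * ((1 / (m : ℝ) ^ k + δ) * S.card) := by
  have hsub : S.filter (fun ω => (fun l => ((F ω l : ℤ) : ZMod m)) ∈ T) ⊆
      T.biUnion (fun r => S.filter (fun ω => (fun l => ((F ω l : ℤ) : ZMod m)) = r)) := by
    intro ω hω
    rw [mem_filter] at hω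
    rw [mem_biUnion]
    exact ⟨_, hω.2, mem_filter.2 ⟨hω.1, rfl⟩⟩
  calc ((S.filter (fun ω => (fun l => ((F ω l : ℤ) : ZMod m)) ∈ T)).card : ℝ) ≤
      ((T.biUnion (fun r => S.filter (fun ω => (fun l => ((F ω l : ℤ) : ZMod m)) = r))).card : ℝ) := by
        exact_mod_cast card_le_card hsub
    _ ≤ ∑ r ∈ T, ((S.filter (fun ω => (fun l => ((F ω l : ℤ) : ZMod m)) = r)).card : ℝ) := by
        exact_mod_cast card_biUnion_le
    _ ≤ ∑ r ∈ T, (1 / (m : ℝ) ^ k + δ) * S.card := sum_le_sum fun r _ => count_res S F hδ hFD r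
    _ = _ := by rw [sum_const, nsmul_eq_mul]

/-- numbers prime to `W` with a small totient -/
theorem exists_m {W : ℕ} (hW : 0 < W) {ε : ℝ} (hε : 0 < ε) : ∃ m : ℕ, 0 < m ∧ m.Coprime W ∧
    (Nat.totient m : ℝ) ≤ ε * m := by
  classical
  set f : ℕ → ℝ := Set.indicator {p | Nat.Prime p} (fun n => (1 : ℝ) / n) with hf
  have hf0 : ∀ n, 0 ≤ f n := by
    intro n
    rw [hf]
    apply Set.indicator_nonneg
    intro x _
    positivity
  have htend := (not_summable_iff_tendsto_nat_atTop_of_nonneg hf0).1 not_summable_one_div_on_primes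
  obtain ⟨M, hM⟩ := (htend.eventually_ge_atTop (∑ n ∈ range (W + 1), f n + -Real.log ε)).exists
  set P := (range M).filter (fun p => p.Prime ∧ W < p) with hP
  have hPp : ∀ p ∈ P, p.Prime ∧ W < p := by
    intro p hp
    rw [hP, mem_filter] at hp
    exact hp.2
  have hsum : -Real.log ε ≤ ∑ p ∈ P, (1 : ℝ) / p := by
    have h1 : ∑ n ∈ range M, f n ≤ ∑ n ∈ range (W + 1), f n + ∑ p ∈ P, (1 : ℝ) / p := by
      have h2 : ∑ n ∈ range M, f n ≤ ∑ n ∈ range (W + 1) ∪ P, f n := by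
        have e1 : ∑ n ∈ range M, f n = ∑ n ∈ (range M).filter (fun n => n.Prime), f n := by
          symm
          apply sum_filter_of_ne
          intro n _ hn
          by_contra hcon
          exact hn (Set.indicator_of_notMem hcon _)
        rw [e1]
        apply sum_le_sum_of_subset_of_nonneg
        · intro n hn
          rw [mem_filter, mem_range] at hn
          rw [mem_union, mem_range, hP, mem_filter, mem_range]
          by_cases h : n ≤ W
          · left; omega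
          · right; exact ⟨hn.1, hn.2, by omega⟩
        · intro n _ _; exact hf0 n
      have h3 := sum_union_inter (s₁ := range (W + 1)) (s₂ := P) (f := f)
      have h4 : 0 ≤ ∑ n ∈ range (W + 1) ∩ P, f n := sum_nonneg fun n _ => hf0 n
      have h5 : ∑ n ∈ P, f n = ∑ p ∈ P, (1 : ℝ) / p := by
        apply sum_congr rfl
        intro p hp
        rw [hf, Set.indicator_of_mem]
        exact (hPp p hp).1
      linarith
    linarith
  have hm0 : 0 < ∏ p ∈ P, p := prod_pos fun p hp => (hPp p hp).1.pos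
  refine ⟨∏ p ∈ P, p, hm0, ?_, ?_⟩
  · apply Nat.Coprime.prod_left
    intro p hp
    rw [Nat.Prime.coprime_iff_not_dvd (hPp p hp).1]
    intro h
    have := Nat.le_of_dvd hW h
    have := (hPp p hp).2
    omega
  · have h1 : (Nat.totient (∏ p ∈ P, p) : ℝ) = (∏ p ∈ P, p : ℕ) * ∏ p ∈ P, (1 - (p : ℝ)⁻¹) := by
      have h2 := Nat.totient_eq_mul_prod_factors (∏ p ∈ P, p)
      rw [Nat.primeFactors_prod (fun p hp => (hPp p hp).1)] at h2
      have h3 : (((Nat.totient (∏ p ∈ P, p) : ℕ) : ℚ) : ℝ) =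
          (((∏ p ∈ P, p : ℕ) : ℚ) * ∏ p ∈ P, (1 - (p : ℚ)⁻¹) : ℚ) := by rw [h2]
      push_cast at h3 ⊢
      exact h3
    rw [h1, mul_comm]
    apply mul_le_mul_of_nonneg_right _ (Nat.cast_nonneg _)
    calc ∏ p ∈ P, (1 - (p : ℝ)⁻¹) ≤ ∏ p ∈ P, Real.exp (-(1 / (p : ℝ))) := by
          apply Finset.prod_le_prod
          · intro p hp
            have : (1 : ℝ) ≤ p := by exact_mod_cast (hPp p hp).1.one_le
            have := inv_le_one_of_one_le₀ this
            linarith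
          · intro p _
            have := Real.add_one_le_exp (-(1 / (p : ℝ)))
            rw [one_div] at this ⊢
            linarith
      _ = Real.exp (-∑ p ∈ P, 1 / (p : ℝ)) := by rw [← Real.exp_sum, sum_neg_distrib]
      _ ≤ Real.exp (Real.log ε) := Real.exp_le_exp.2 (by linarith)
      _ = ε := Real.exp_log hε

open Classical in
/-- almost all values of a digital map have a coordinate with a small prime factor -/
theorem rough_digits (k A0 B : ℕ) (hk : 0 < k) (hB : 0 < B) (κ : ℝ) (hκ : 0 < κ) (Wd : ℕ) (hWd : 0 < Wd)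
    {ε : ℝ} (hε : 0 < ε) : ∃ T₀ : ℕ, ∀ᶠ L : ℕ in atTop,
    ∀ {ι : Type} [Fintype ι] [DecidableEq ι] (D : ι → Finset ℤ) (v : ι → Fin k → ℤ),
    ManyGood Wd A0 B κ L D v →
    (((Fintype.piFinset D).filter (fun ω => ∀ p : ℕ, p.Prime → p ≤ T₀ → ∀ l,
      ¬ (p : ℤ) ∣ lin v ω l)).card : ℝ) ≤ ε * (Fintype.piFinset D).card := by
  obtain ⟨m, hm0, hmW, hmt⟩ := exists_m hWd (show 0 < ε / 2 by positivity)
  haveI : NeZero m := ⟨hm0.ne'⟩
  refine ⟨m, ?_⟩
  have t1 : ∀ᶠ L : ℕ in atTop, m ≤ NN k B κ L := (tendsto_NN k hB hκ).eventually_ge_atTop m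
  have t2 : ∀ᶠ L : ℕ in atTop, 2 / ε ≤ ((NN k B κ L : ℕ) : ℝ) :=
    (tendsto_natCast_atTop_atTop.comp (tendsto_NN k hB hκ)).eventually_ge_atTop _
  filter_upwards [fd_digits k A0 B hB κ hκ, t1, t2] with L h1 h2 h3 ι _ _ D v hgood
  have hN0 : 0 < NN k B κ L := by omega
  have hNR : (0 : ℝ) < (NN k B κ L : ℕ) := by exact_mod_cast hN0
  set T : Finset (Fin k → ZMod m) := Fintype.piFinset (fun _ => univ.filter (fun x : ZMod m => IsUnit x))
    with hT
  have hTc : T.card = (Nat.totient m) ^ k := by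
    rw [hT, Fintype.card_piFinset, prod_const, card_univ, Fintype.card_fin]
    congr 1
    rw [← ZMod.card_units_eq_totient, ← card_univ]
    have : (univ.filter (fun x : ZMod m => IsUnit x)) = (univ : Finset ((ZMod m)ˣ)).image (Units.val) := by
      ext x
      rw [mem_filter, mem_image]
      constructor
      · rintro ⟨-, u, hu⟩
        exact ⟨u, mem_univ _, hu⟩
      · rintro ⟨u, -, hu⟩
        exact ⟨mem_univ _, u, hu⟩
    rw [this, card_image_of_injective _ Units.val_injective]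
  have hcs := count_set (Fintype.piFinset D) (fun ω => lin v ω)
    (δ := ((NN k B κ L : ℕ) : ℝ) ^ (-((k : ℝ) + 1))) (by positivity)
    (fun b hb => h1 Wd D v hgood m hm0 h2 hmW b hb) T
  have hsub : (Fintype.piFinset D).filter (fun ω => ∀ p : ℕ, p.Prime → p ≤ m → ∀ l,
      ¬ (p : ℤ) ∣ lin v ω l) ⊆ (Fintype.piFinset D).filter
        (fun ω => (fun l => ((lin v ω l : ℤ) : ZMod m)) ∈ T) := by
    intro ω hω
    rw [mem_filter] at hω ⊢
    refine ⟨hω.1, ?_⟩
    rw [hT, Fintype.mem_piFinset]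
    intro l
    rw [mem_filter]
    refine ⟨mem_univ _, ?_⟩
    have hco : (lin v ω l).natAbs.Coprime m := by
      apply Nat.coprime_of_dvd
      intro p hp hpl hpm
      exact hω.2 p hp (Nat.le_of_dvd hm0 hpm) l (Int.natCast_dvd.2 hpl)
    have h4 : IsUnit (((lin v ω l).natAbs : ℕ) : ZMod m) := (ZMod.isUnit_iff_coprime _ _).2 hco
    rcases Int.natAbs_eq (lin v ω l) with h5 | h5
    · rw [h5, Int.cast_natCast]; exact h4
    · rw [h5, Int.cast_neg, Int.cast_natCast]; exact h4.neg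
  refine le_trans (Nat.cast_le.2 (card_le_card hsub)) (hcs.trans ?_)
  rw [hTc, ← mul_assoc]
  apply mul_le_mul_of_nonneg_right _ (Nat.cast_nonneg _)
  push_cast
  have hmR : (0 : ℝ) < m := by exact_mod_cast hm0
  have htm : (Nat.totient m : ℝ) ≤ m := by exact_mod_cast Nat.totient_le m
  have ht0 : (0 : ℝ) ≤ Nat.totient m := Nat.cast_nonneg _
  have e1 : (Nat.totient m : ℝ) ^ k * (1 / (m : ℝ) ^ k) ≤ ε / 2 := by
    rw [mul_one_div, ← div_pow]
    have h5 : (Nat.totient m : ℝ) / m ≤ 1 := by rw [div_le_one hmR]; exact htm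
    calc ((Nat.totient m : ℝ) / m) ^ k ≤ ((Nat.totient m : ℝ) / m) ^ 1 :=
          pow_le_pow_of_le_one (by positivity) h5 hk
      _ = (Nat.totient m : ℝ) / m := pow_one _
      _ ≤ ε / 2 := by rw [div_le_iff₀ hmR]; exact hmt
  have e2 : (Nat.totient m : ℝ) ^ k * ((NN k B κ L : ℕ) : ℝ) ^ (-((k : ℝ) + 1)) ≤ ε / 2 := by
    have h6 : (Nat.totient m : ℝ) ≤ (NN k B κ L : ℕ) := htm.trans (by exact_mod_cast h2)
    calc (Nat.totient m : ℝ) ^ k * ((NN k B κ L : ℕ) : ℝ) ^ (-((k : ℝ) + 1)) ≤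
        ((NN k B κ L : ℕ) : ℝ) ^ k * ((NN k B κ L : ℕ) : ℝ) ^ (-((k : ℝ) + 1)) := by gcongr
      _ = ((NN k B κ L : ℕ) : ℝ)⁻¹ := by
          rw [← Real.rpow_natCast, ← Real.rpow_add hNR, ← Real.rpow_neg_one]
          congr 1
          ring
      _ ≤ ε / 2 := by
          rw [inv_le_comm₀ hNR (by positivity)]
          rw [show (ε / 2)⁻¹ = 2 / ε by field_simp]
          exact h3
  calc (Nat.totient m : ℝ) ^ k * (1 / (m : ℝ) ^ k + ((NN k B κ L : ℕ) : ℝ) ^ (-((k : ℝ) + 1))) =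
      (Nat.totient m : ℝ) ^ k * (1 / (m : ℝ) ^ k) +
        (Nat.totient m : ℝ) ^ k * ((NN k B κ L : ℕ) : ℝ) ^ (-((k : ℝ) + 1)) := by ring
    _ ≤ ε := by linarith

end Pool.Agent.Y353.FP
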