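import Mathlib
import Pool.Agent.Y353.PS.Min

/-!
Project FP (helper353): a pair of bases with a small prime factor or a not too large exponent: the exponent of
the third base has a prime factor at most a power of the logarithm of the height.
-/

set_option autoImplicit false

namespace Pool.Agent.Y353.FP

open Finset Filter Topology
open Pool.Agent.H374R2.W
open Pool.Agent.TH194.BL Pool.Agent.Y353.PS

/-- one of the bases has a small prime factor -/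
theorem small_q' (K b : ℕ) : ∃ N₀ : ℕ, ∀ N : ℕ, N₀ ≤ N → ∀ A B x y q U p : ℕ, 2 ≤ A → 2 ≤ B →
    A ≤ N ^ K → B ≤ N ^ K → Nat.Coprime A B → 0 < x → 0 < y → 2 ≤ U → q.Prime →
    (A ^ x + B ^ y = U ^ q ∨ A ^ x + U ^ q = B ^ y ∨ B ^ y + U ^ q = A ^ x) →
    p.Prime → p ∣ B → (p : ℝ) ≤ Real.log N ^ b → (q : ℝ) ≤ Real.log N ^ (4 * b + 9) := by
  have v2 : ∀ᶠ N : ℕ in atTop, 49 * 10 ^ 18 + 2 * (K : ℝ) ≤ Real.log N :=
    (Real.tendsto_log_atTop.comp tendsto_natCast_atTop_atTop).eventually_ge_atTop _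
  obtain ⟨N₂, hN₂⟩ := eventually_atTop.1 v2
  refine ⟨max N₂ 1, fun N hN A B x y q U p hA hB hAN hBN hco hx hy hU hq heq hp hpB hpL => ?_⟩
  simp only [max_le_iff] at hN
  obtain ⟨g2, g3⟩ := hN
  have w1 := hN₂ N g2
  set L := Real.log (N : ℝ) with hL
  have hK0 : (0 : ℝ) ≤ K := Nat.cast_nonneg _
  have hL1 : 49 * 10 ^ 18 ≤ L := by linarith
  have hL0 : 1 ≤ L := by linarith
  have hNR : (0 : ℝ) < N := by exact_mod_cast g3
  rcases Nat.lt_or_ge q 3 with hq3 | hq3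
  · have h1 : (q : ℝ) ≤ 2 := by exact_mod_cast (by omega : q ≤ 2)
    calc (q : ℝ) ≤ L := by linarith
      _ = L ^ 1 := (pow_one L).symm
      _ ≤ L ^ (4 * b + 9) := pow_le_pow_right₀ hL0 (by omega)
  obtain ⟨s, σ, hs, hσ, heq'⟩ : ∃ s σ : ℤ, (s = 1 ∨ s = -1) ∧ (σ = 1 ∨ σ = -1) ∧
      (U : ℤ) ^ q - s * (A : ℤ) ^ x = σ * (B : ℤ) ^ y := by
    rcases heq with h | h | h
    · have h' : (A : ℤ) ^ x + (B : ℤ) ^ y = (U : ℤ) ^ q := by exact_mod_cast h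
      exact ⟨1, 1, Or.inl rfl, Or.inl rfl, by rw [← h']; ring⟩
    · have h' : (A : ℤ) ^ x + (U : ℤ) ^ q = (B : ℤ) ^ y := by exact_mod_cast h
      exact ⟨-1, 1, Or.inr rfl, Or.inl rfl, by rw [← h']; ring⟩
    · have h' : (B : ℤ) ^ y + (U : ℤ) ^ q = (A : ℤ) ^ x := by exact_mod_cast h
      exact ⟨1, -1, Or.inl rfl, Or.inr rfl, by rw [← h']; ring⟩
  have h1 := q_bound (N := N ^ K) (P := p) (fun h1 h2 h3 h4 h5 h6 =>
    real_two_logs h1 h2 h3 h4 h5 h6) hs hσ hq hq3 (by omega) hAN hco (by omega) hBN hx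
    (fun h => by omega) hy hU hp le_rfl hpB heq'
  have h2 : q ≤ 49 * (10 ^ 9 * p ^ 2 * (Nat.log 2 (N ^ K) + 1) ^ 2) ^ 2 := by
    apply q_le hq.pos
    calc q ≤ _ := h1
      _ = _ := by ring
  have hl : ((Nat.log 2 (N ^ K) : ℕ) : ℝ) + 1 ≤ L ^ 2 := by
    have h1 : ((Nat.log 2 (N ^ K) : ℕ) : ℝ) * Real.log 2 ≤ Real.log ((N ^ K : ℕ) : ℝ) := by
      rw [← Real.log_pow]
      apply Real.log_le_log (by positivity)
      have : 2 ^ Nat.log 2 (N ^ K) ≤ N ^ K := Nat.pow_log_le_self 2 (by positivity)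
      exact_mod_cast this
    rw [Nat.cast_pow, Real.log_pow, ← hL] at h1
    have h2 : (1 : ℝ) / 2 ≤ Real.log 2 := by have := Real.log_two_gt_d9; linarith
    have h3 : ((Nat.log 2 (N ^ K) : ℕ) : ℝ) * (1 / 2) ≤ K * L :=
      le_trans (mul_le_mul_of_nonneg_left h2 (by positivity)) h1
    nlinarith
  have h3 : (q : ℝ) ≤ 49 * (10 ^ 9 * (p : ℝ) ^ 2 * (((Nat.log 2 (N ^ K) : ℕ) : ℝ) + 1) ^ 2) ^ 2 := by
    exact_mod_cast h2
  have hp0 : (0 : ℝ) ≤ p := Nat.cast_nonneg _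
  calc (q : ℝ) ≤ 49 * (10 ^ 9 * (p : ℝ) ^ 2 * (((Nat.log 2 (N ^ K) : ℕ) : ℝ) + 1) ^ 2) ^ 2 := h3
    _ ≤ 49 * (10 ^ 9 * (L ^ b) ^ 2 * (L ^ 2) ^ 2) ^ 2 := by gcongr
    _ = (49 * 10 ^ 18) * L ^ (4 * b + 8) := by ring
    _ ≤ L * L ^ (4 * b + 8) := by gcongr
    _ = L ^ (4 * b + 9) := by ring

theorem pair_N2 (K b : ℕ) : ∃ B' N₀ : ℕ, ∀ N : ℕ, N₀ ≤ N → ∀ A B x y z C : ℕ, 2 ≤ A → 2 ≤ B →
    A ≤ N ^ K → B ≤ N ^ K → Nat.Coprime A B → 0 < x → 0 < y → 2 ≤ z → 0 < C →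
    (A ^ x + B ^ y = C ^ z ∨ A ^ x + C ^ z = B ^ y ∨ B ^ y + C ^ z = A ^ x) →
    ((∃ p : ℕ, p.Prime ∧ (p : ℝ) ≤ Real.log N ^ b ∧ p ∣ A * B) ∨
      ((min x y : ℕ) : ℝ) ≤ Real.exp (Real.log N ^ b)) →
    ∃ n q : ℕ, q.Prime ∧ q ∣ n ∧ (q : ℝ) ≤ Real.log N ^ B' ∧ (![A, B] : Fin 2 → ℕ) ∈ Exc 2 n 1 := by
  obtain ⟨B₁, N₁, h₁⟩ := min_q K b
  obtain ⟨N₂, h₂⟩ := small_q' K (b + 1)
  have v2 : ∀ᶠ N : ℕ in atTop, 2 ≤ Real.log N :=
    (Real.tendsto_log_atTop.comp tendsto_natCast_atTop_atTop).eventually_ge_atTop _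
  obtain ⟨N₃, hN₃⟩ := eventually_atTop.1 v2
  refine ⟨max B₁ (4 * (b + 1) + 9) + 1, max N₁ (max N₂ N₃), fun N hN A B x y z C hA hB hAN hBN hco hx hy hz
    hC heq hor => ?_⟩
  simp only [max_le_iff] at hN
  obtain ⟨g1, g2, g3⟩ := hN
  have hL2 := hN₃ N g3
  set L := Real.log (N : ℝ) with hL
  have hL1 : 1 ≤ L := by linarith
  have hLone : ∀ m : ℕ, (2 : ℝ) ≤ L ^ (m + 1) := fun m => by
    calc (2 : ℝ) ≤ L := hL2
      _ = L ^ 1 := (pow_one L).symm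
      _ ≤ L ^ (m + 1) := pow_le_pow_right₀ hL1 (by omega)
  rcases Nat.lt_or_ge C 2 with hC1 | hC1
  · have hC1' : C = 1 := by omega
    refine ⟨2, 2, Nat.prime_two, dvd_rfl, by push_cast; exact hLone _,
      sol_exc (by omega) (by omega) hco le_rfl hx hy hC (C := C) ?_⟩
    rw [hC1', one_pow] at heq ⊢
    exact heq
  have hexc : (![A, B] : Fin 2 → ℕ) ∈ Exc 2 z 1 := sol_exc (by omega) (by omega) hco hz hx hy hC heq
  suffices h : ∃ q : ℕ, q.Prime ∧ q ∣ z ∧ ((q : ℝ) ≤ L ^ B₁ ∨ (q : ℝ) ≤ L ^ (4 * (b + 1) + 9)) by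
    obtain ⟨q, hq, hqz, hqL⟩ := h
    refine ⟨z, q, hq, hqz, ?_, hexc⟩
    rcases hqL with h | h
    · exact h.trans (pow_le_pow_right₀ hL1 (by omega))
    · exact h.trans (pow_le_pow_right₀ hL1 (by omega))
  -- a small prime factor
  have hsp : ∀ p : ℕ, p.Prime → (p : ℝ) ≤ L ^ (b + 1) → p ∣ A * B →
      ∃ q : ℕ, q.Prime ∧ q ∣ z ∧ ((q : ℝ) ≤ L ^ B₁ ∨ (q : ℝ) ≤ L ^ (4 * (b + 1) + 9)) := by
    intro p hp hpL hpd
    have hU : C ^ z = (C ^ (z / z.minFac)) ^ z.minFac := by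
      rw [← pow_mul, Nat.div_mul_cancel (Nat.minFac_dvd z)]
    have hd : 0 < z / z.minFac := Nat.div_pos (Nat.minFac_le (by omega)) (Nat.minFac_pos z)
    have hqp : z.minFac.Prime := Nat.minFac_prime (by omega)
    have hU2 : 2 ≤ C ^ (z / z.minFac) := hC1.trans (Nat.le_self_pow hd.ne' C)
    refine ⟨z.minFac, hqp, Nat.minFac_dvd z, Or.inr ?_⟩
    rw [hU] at heq
    rcases (Nat.Prime.dvd_mul hp).1 hpd with h | h
    · refine h₂ N g2 B A y x z.minFac _ p hB hA hBN hAN hco.symm hy hx hU2 hqp ?_ hp h hpL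
      rcases heq with h | h | h
      · left; rw [add_comm]; exact h
      · right; right; exact h
      · right; left; exact h
    · exact h₂ N g2 A B x y z.minFac _ p hA hB hAN hBN hco hx hy hU2 hqp heq hp h hpL
  by_cases h2 : 2 ∣ A * B
  · exact hsp 2 Nat.prime_two (by push_cast; exact hLone b) h2
  rcases hor with ⟨p, hp, hpL, hpd⟩ | hmn
  · exact hsp p hp (hpL.trans (pow_le_pow_right₀ hL1 (by omega))) hpd
  · have hA2 : ¬ 2 ∣ A := fun h => h2 (h.mul_right _)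
    have hB2 : ¬ 2 ∣ B := fun h => h2 (h.mul_left _)
    rcases Nat.le_total x y with hxy | hxy
    · rw [min_eq_left hxy] at hmn
      obtain ⟨q, hq, hqz, hqL⟩ := h₁ N g1 A B x y z C hA hB hAN hBN hco hA2 hB2 hx hy hz hC1 heq hmn
      exact ⟨q, hq, hqz, Or.inl hqL⟩
    · rw [min_eq_right hxy] at hmn
      obtain ⟨q, hq, hqz, hqL⟩ := h₁ N g1 B A y x z C hB hA hBN hAN hco.symm hB2 hA2
        hy hx hz hC1 (by
          rcases heq with h | h | h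
          · left; rw [add_comm]; exact h
          · right; right; exact h
          · right; left; exact h) hmn
      exact ⟨q, hq, hqz, Or.inl hqL⟩

/-- one of the bases is one -/
theorem pair_one (K : ℕ) : ∃ N₀ : ℕ, ∀ N : ℕ, N₀ ≤ N → ∀ B y q U : ℕ, 2 ≤ B → B ≤ N ^ K → 0 < y →
    2 ≤ U → q.Prime → (1 + B ^ y = U ^ q ∨ 1 + U ^ q = B ^ y) → (q : ℝ) ≤ Real.log N ^ 9 := by
  have v2 : ∀ᶠ N : ℕ in atTop, 49 * 10 ^ 18 + 2 * (K : ℝ) ≤ Real.log N :=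
    (Real.tendsto_log_atTop.comp tendsto_natCast_atTop_atTop).eventually_ge_atTop _
  obtain ⟨N₂, hN₂⟩ := eventually_atTop.1 v2
  refine ⟨max N₂ 1, fun N hN B y q U hB hBN hy hU hq heq => ?_⟩
  simp only [max_le_iff] at hN
  obtain ⟨g2, g3⟩ := hN
  have w1 := hN₂ N g2
  set L := Real.log (N : ℝ) with hL
  have hK0 : (0 : ℝ) ≤ K := Nat.cast_nonneg _
  have hL1 : 49 * 10 ^ 18 ≤ L := by linarith
  have hL0 : 1 ≤ L := by linarith
  have hBR : (2 : ℝ) ≤ B := by exact_mod_cast hB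
  have hy0 : (0 : ℝ) < y := by exact_mod_cast hy
  have h1 : q ≤ 49 * (10 ^ 9 * (Nat.log 2 B + 1)) ^ 2 := by
    refine arch_q (A := 1) (x := 1) one_pos hB hq hU hy (by simpa using heq) ?_
    push_cast
    rw [one_pow]
    apply Real.one_lt_rpow (by linarith) (by positivity)
  have hl : ((Nat.log 2 B : ℕ) : ℝ) + 1 ≤ L ^ 2 := by
    have h1 : ((Nat.log 2 B : ℕ) : ℝ) * Real.log 2 ≤ Real.log ((N ^ K : ℕ) : ℝ) := by
      rw [← Real.log_pow]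
      apply Real.log_le_log (by positivity)
      have : 2 ^ Nat.log 2 B ≤ N ^ K := (Nat.pow_log_le_self 2 (by omega)).trans hBN
      exact_mod_cast this
    rw [Nat.cast_pow, Real.log_pow, ← hL] at h1
    have h2 : (1 : ℝ) / 2 ≤ Real.log 2 := by have := Real.log_two_gt_d9; linarith
    have h3 : ((Nat.log 2 B : ℕ) : ℝ) * (1 / 2) ≤ K * L :=
      le_trans (mul_le_mul_of_nonneg_left h2 (by positivity)) h1
    nlinarith
  have h3 : (q : ℝ) ≤ 49 * (10 ^ 9 * (((Nat.log 2 B : ℕ) : ℝ) + 1)) ^ 2 := by exact_mod_cast h1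
  calc (q : ℝ) ≤ 49 * (10 ^ 9 * (((Nat.log 2 B : ℕ) : ℝ) + 1)) ^ 2 := h3
    _ ≤ 49 * (10 ^ 9 * L ^ 2) ^ 2 := by gcongr
    _ = (49 * 10 ^ 18) * L ^ 4 := by ring
    _ ≤ L * L ^ 4 := by gcongr
    _ = L ^ 5 := by ring
    _ ≤ L ^ 9 := pow_le_pow_right₀ hL0 (by norm_num)

theorem pair_N (K b : ℕ) : ∃ B' N₀ : ℕ, ∀ N : ℕ, N₀ ≤ N → ∀ A B x y z C : ℕ, 0 < A → 0 < B →
    A ≤ N ^ K → B ≤ N ^ K → Nat.Coprime A B → 0 < x → 0 < y → 2 ≤ z → 0 < C →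
    (A ^ x + B ^ y = C ^ z ∨ A ^ x + C ^ z = B ^ y ∨ B ^ y + C ^ z = A ^ x) →
    ((∃ p : ℕ, p.Prime ∧ (p : ℝ) ≤ Real.log N ^ b ∧ p ∣ A * B) ∨
      ((min x y : ℕ) : ℝ) ≤ Real.exp (Real.log N ^ b)) →
    ∃ n q : ℕ, q.Prime ∧ q ∣ n ∧ (q : ℝ) ≤ Real.log N ^ B' ∧ (![A, B] : Fin 2 → ℕ) ∈ Exc 2 n 1 := by
  obtain ⟨B₁, N₁, h₁⟩ := pair_N2 K b
  obtain ⟨N₂, h₂⟩ := pair_one K
  have v2 : ∀ᶠ N : ℕ in atTop, 2 ≤ Real.log N :=
    (Real.tendsto_log_atTop.comp tendsto_natCast_atTop_atTop).eventually_ge_atTop _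
  obtain ⟨N₃, hN₃⟩ := eventually_atTop.1 v2
  refine ⟨max B₁ 9, max N₁ (max N₂ N₃), fun N hN A B x y z C hA hB hAN hBN hco hx hy hz hC heq hor => ?_⟩
  simp only [max_le_iff] at hN
  obtain ⟨g1, g2, g3⟩ := hN
  have hL2 := hN₃ N g3
  set L := Real.log (N : ℝ) with hL
  have hL1 : 1 ≤ L := by linarith
  have hexc : (![A, B] : Fin 2 → ℕ) ∈ Exc 2 z 1 := sol_exc hA hB hco hz hx hy hC heq
  rcases Nat.lt_or_ge C 2 with hC1 | hC1
  · have hC1' : C = 1 := by omega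
    refine ⟨2, 2, Nat.prime_two, dvd_rfl, ?_, sol_exc hA hB hco le_rfl hx hy hC (C := C) ?_⟩
    · push_cast
      calc (2 : ℝ) ≤ L := hL2
        _ = L ^ 1 := (pow_one L).symm
        _ ≤ _ := pow_le_pow_right₀ hL1 (by omega)
    · rw [hC1', one_pow] at heq ⊢
      exact heq
  have hU : C ^ z = (C ^ (z / z.minFac)) ^ z.minFac := by
    rw [← pow_mul, Nat.div_mul_cancel (Nat.minFac_dvd z)]
  have hd : 0 < z / z.minFac := Nat.div_pos (Nat.minFac_le (by omega)) (Nat.minFac_pos z)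
  have hqp : z.minFac.Prime := Nat.minFac_prime (by omega)
  have hU2 : 2 ≤ C ^ (z / z.minFac) := hC1.trans (Nat.le_self_pow hd.ne' C)
  have hCz : 2 ≤ C ^ z := hC1.trans (Nat.le_self_pow (by omega) C)
  have hAx : 0 < A ^ x := Nat.pow_pos hA
  have hBy : 0 < B ^ y := Nat.pow_pos hB
  rcases Nat.lt_or_ge A 2 with hA1 | hA1
  · have hA1' : A = 1 := by omega
    rw [hA1', one_pow] at heq
    rcases Nat.lt_or_ge B 2 with hB1 | hB1
    · exfalso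
      have hB1' : B = 1 := by omega
      rw [hB1', one_pow] at heq
      have h4 : 2 ^ 2 ≤ C ^ z := (Nat.pow_le_pow_left hC1 2).trans (Nat.pow_le_pow_right (by omega) hz)
      clear hor
      omega
    · refine ⟨z, z.minFac, hqp, Nat.minFac_dvd z, ?_, hexc⟩
      refine (h₂ N g2 B y z.minFac _ hB1 hBN hy hU2 hqp ?_).trans (pow_le_pow_right₀ hL1 (le_max_right _ _))
      rw [← hU]
      clear hor
      omega
  · rcases Nat.lt_or_ge B 2 with hB1 | hB1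
    · have hB1' : B = 1 := by omega
      rw [hB1', one_pow] at heq
      refine ⟨z, z.minFac, hqp, Nat.minFac_dvd z, ?_, hexc⟩
      refine (h₂ N g2 A x z.minFac _ hA1 hAN hx hU2 hqp ?_).trans (pow_le_pow_right₀ hL1 (le_max_right _ _))
      rw [← hU]
      clear hor
      omega
    · obtain ⟨n, q, hq, hqn, hqL, hex⟩ := h₁ N g1 A B x y z C hA1 hB1 hAN hBN hco hx hy hz hC heq hor
      exact ⟨n, q, hq, hqn, hqL.trans (pow_le_pow_right₀ hL1 (le_max_left _ _)), hex⟩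

/-- the same with `L` in place of `log N` -/
theorem pair_exc (K b : ℕ) : ∃ B' L₀ : ℕ, ∀ L : ℕ, L₀ ≤ L → ∀ A B x y z C : ℕ, 0 < A → 0 < B →
    (A : ℝ) ≤ Real.exp (K * L) → (B : ℝ) ≤ Real.exp (K * L) → Nat.Coprime A B → 0 < x → 0 < y →
    2 ≤ z → 0 < C → (A ^ x + B ^ y = C ^ z ∨ A ^ x + C ^ z = B ^ y ∨ B ^ y + C ^ z = A ^ x) →
    ((∃ p : ℕ, p.Prime ∧ (p : ℝ) ≤ (L : ℝ) ^ b ∧ p ∣ A * B) ∨
      ((min x y : ℕ) : ℝ) ≤ Real.exp ((L : ℝ) ^ b)) →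
    ∃ n q : ℕ, q.Prime ∧ q ∣ n ∧ (q : ℝ) ≤ (L : ℝ) ^ B' ∧ (![A, B] : Fin 2 → ℕ) ∈ Exc 2 n 1 := by
  obtain ⟨B₁, N₁, h₁⟩ := pair_N K b
  refine ⟨2 * B₁, max N₁ 2, fun L hL A B x y z C hA hB hAL hBL hco hx hy hz hC heq hor => ?_⟩
  simp only [max_le_iff] at hL
  obtain ⟨g1, g2⟩ := hL
  have hLR : (2 : ℝ) ≤ L := by exact_mod_cast g2
  set N : ℕ := ⌈Real.exp (L : ℝ)⌉₊ with hN
  have hexpN : Real.exp (L : ℝ) ≤ N := Nat.le_ceil _
  have hNexp : (N : ℝ) < Real.exp (L : ℝ) + 1 := Nat.ceil_lt_add_one (Real.exp_pos _).le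
  have hNpos : (0 : ℝ) < N := lt_of_lt_of_le (Real.exp_pos _) hexpN
  have hLN : (L : ℝ) ≤ Real.log N := by
    rw [Real.le_log_iff_exp_le hNpos]; exact hexpN
  have hNL : Real.log N ≤ L + 1 := by
    rw [Real.log_le_iff_le_exp hNpos, Real.exp_add]
    have h1 : (1 : ℝ) ≤ Real.exp (L : ℝ) := Real.one_le_exp (by linarith)
    have h2 : (2 : ℝ) ≤ Real.exp 1 := by have := Real.exp_one_gt_d9; linarith
    nlinarith
  have hNN₁ : N₁ ≤ N := by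
    have h1 : (L : ℝ) ≤ N := by
      have := Real.add_one_le_exp (L : ℝ)
      linarith
    have h2 : L ≤ N := by exact_mod_cast h1
    omega
  have hheight : ∀ A : ℕ, (A : ℝ) ≤ Real.exp (K * L) → A ≤ N ^ K := by
    intro A hA
    have h1 : Real.exp ((K : ℝ) * L) ≤ (N : ℝ) ^ K := by
      rw [Real.exp_nat_mul]
      exact pow_le_pow_left₀ (Real.exp_pos _).le hexpN K
    exact_mod_cast hA.trans h1
  have hL0 : (0 : ℝ) ≤ L := by linarith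
  obtain ⟨n, q, hq, hqn, hqL, hex⟩ := h₁ N hNN₁ A B x y z C hA hB (hheight A hAL) (hheight B hBL) hco hx hy hz
    hC heq (by
      rcases hor with ⟨p, hp, hpL, hpd⟩ | h
      · exact Or.inl ⟨p, hp, hpL.trans (pow_le_pow_left₀ hL0 hLN b), hpd⟩
      · exact Or.inr (h.trans (Real.exp_le_exp.2 (pow_le_pow_left₀ hL0 hLN b))))
  refine ⟨n, q, hq, hqn, hqL.trans ?_, hex⟩
  calc Real.log N ^ B₁ ≤ ((L : ℝ) ^ 2) ^ B₁ := by
        apply pow_le_pow_left₀ (by linarith)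
        nlinarith
    _ = (L : ℝ) ^ (2 * B₁) := by rw [pow_mul]

end Pool.Agent.Y353.FP
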