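import Pool.Agent.Y353.FD.CoverQ
import Pool.Agent.Y353.PS.Loc

/-!
Project FP (helper353): maps with small Fourier coefficients, all exponents with a prime factor at most a
power of `log N`.
-/

set_option autoImplicit false

namespace Pool.Agent.Y353.FP

open Finset Filter Topology
open Pool.Agent.TH194.BL Pool.Agent.Y353.FD Pool.Agent.Y353.PS

/-- further parameters -/
structure ParD (B K : ℕ) (ε : ℝ) (L : ℝ) (z : ℕ) : Prop where
  jz : 8 * √L ≤ (z : ℝ) ^ (1 / 200 : ℝ)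
  fin : B * Real.log L * (L ^ (1 - ε) + 1) + 1 ≤ (1 / (500 * K) - 1 / (600 * K)) * L

theorem ev_parD (B K : ℕ) (hK : 1 ≤ K) {ε : ℝ} (h0 : 0 < ε) (h1 : ε ≤ 1) : ∀ᶠ L : ℝ in atTop,
    ParD B K ε L ⌊Real.exp (√L)⌋₊ := by
  have hKR : (1 : ℝ) ≤ K := by exact_mod_cast hK
  have hsq : Tendsto (fun L : ℝ => √L) atTop atTop := Real.tendsto_sqrt_atTop
  have hex : Tendsto (fun L : ℝ => Real.exp (√L)) atTop atTop := Real.tendsto_exp_atTop.comp hsq
  have e2 : ∀ᶠ L : ℝ in atTop, (2 : ℝ) ≤ Real.exp (√L) := hex.eventually_ge_atTop _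
  have e5 : ∀ᶠ L : ℝ in atTop, 16 * √L ≤ Real.exp (√L / 200) := by
    have h := (Real.tendsto_exp_div_pow_atTop 1).comp (hsq.atTop_div_const (show (0 : ℝ) < 200 by norm_num))
    have h2 := h.eventually_ge_atTop 3200
    filter_upwards [h2, eventually_gt_atTop 0] with L hL hL0
    simp only [Function.comp_apply, pow_one] at hL
    have : 0 < √L := Real.sqrt_pos.2 hL0
    rw [le_div_iff₀ (by positivity)] at hL
    linarith
  have e6 : ∀ᶠ L : ℝ in atTop, Real.log L ≤ L ^ (ε / 2) := by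
    have h := (isLittleO_log_rpow_atTop (show (0 : ℝ) < ε / 2 by linarith)).bound
      (show (0 : ℝ) < 1 by norm_num)
    filter_upwards [h, eventually_ge_atTop 1] with x hx hx1
    rw [one_mul, Real.norm_of_nonneg (Real.log_nonneg hx1),
      Real.norm_of_nonneg (Real.rpow_nonneg (by linarith) _)] at hx
    exact hx
  have e7 : ∀ᶠ L : ℝ in atTop, 12000 * (K : ℝ) * B ≤ L ^ (ε / 2) :=
    (tendsto_rpow_atTop (by linarith)).eventually_ge_atTop _
  filter_upwards [e2, e5, e6, e7, eventually_ge_atTop (max 1 (6000 * (K : ℝ)))] with L h2 h5 h6 h7 h8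
  have hL1 : 1 ≤ L := (le_max_left _ _).trans h8
  have hLK : 6000 * (K : ℝ) ≤ L := (le_max_right _ _).trans h8
  have hL0 : 0 < L := by linarith
  refine ⟨?_, ?_⟩
  · set z := ⌊Real.exp (√L)⌋₊ with hz
    have hzge : Real.exp (√L) / 2 ≤ (z : ℝ) := by
      have := Nat.lt_floor_add_one (Real.exp (√L))
      rw [← hz] at this
      linarith
    have hzp : Real.exp (√L / 200) / 2 ≤ (z : ℝ) ^ (1 / 200 : ℝ) := by
      calc Real.exp (√L / 200) / 2 ≤ Real.exp (√L / 200) / 2 ^ (1 / 200 : ℝ) := by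
            apply div_le_div_of_nonneg_left (Real.exp_nonneg _) (by positivity)
            calc (2 : ℝ) ^ (1 / 200 : ℝ) ≤ 2 ^ (1 : ℝ) :=
                  Real.rpow_le_rpow_of_exponent_le (by norm_num) (by norm_num)
              _ = 2 := Real.rpow_one 2
        _ = (Real.exp (√L) / 2) ^ (1 / 200 : ℝ) := by
            rw [Real.div_rpow (Real.exp_nonneg _) (by norm_num), ← Real.exp_mul]
            congr 2; ring
        _ ≤ _ := Real.rpow_le_rpow (by positivity) hzge (by norm_num)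
    linarith
  · have a1 : (1 : ℝ) / (500 * K) - 1 / (600 * K) = 1 / (3000 * K) := by
      field_simp; norm_num
    rw [a1]
    have hB0 : (0 : ℝ) ≤ B := Nat.cast_nonneg _
    have a2 : (1 : ℝ) ≤ L ^ (1 - ε) := Real.one_le_rpow hL1 (by linarith)
    have a3 : L = L ^ (1 - ε) * (L ^ (ε / 2) * L ^ (ε / 2)) := by
      rw [← Real.rpow_add hL0, ← Real.rpow_add hL0]
      nth_rewrite 1 [← Real.rpow_one L]
      congr 1; ring
    have a4 : (B : ℝ) * Real.log L * (L ^ (1 - ε) + 1) ≤ 1 / (6000 * K) * L := by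
      have hq : 0 ≤ L ^ (ε / 2) := by positivity
      calc (B : ℝ) * Real.log L * (L ^ (1 - ε) + 1) ≤ B * L ^ (ε / 2) * (2 * L ^ (1 - ε)) := by
            apply mul_le_mul (mul_le_mul_of_nonneg_left h6 hB0) (by linarith) (by linarith)
            positivity
        _ = 2 * B * (L ^ (1 - ε) * L ^ (ε / 2)) := by ring
        _ ≤ (L ^ (ε / 2) / (6000 * K)) * (L ^ (1 - ε) * L ^ (ε / 2)) := by
            apply mul_le_mul_of_nonneg_right _ (by positivity)
            rw [le_div_iff₀ (by positivity)]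
            linarith
        _ = 1 / (6000 * K) * (L ^ (1 - ε) * (L ^ (ε / 2) * L ^ (ε / 2))) := by ring
        _ = 1 / (6000 * K) * L := by rw [← a3]
    have a5 : (1 : ℝ) ≤ 1 / (6000 * K) * L := by
      rw [one_div_mul_eq_div, le_div_iff₀ (by positivity)]
      linarith
    have a6 : 1 / (3000 * (K : ℝ)) * L = 1 / (6000 * K) * L + 1 / (6000 * K) * L := by
      field_simp; norm_num
    linarith

open Classical in
/-- one prime exponent `q ≤ (log N) ^ B` -/
theorem meas_one : ∃ K : ℕ, 1 ≤ K ∧ ∀ (k B : ℕ) (ε : ℝ), 0 < ε → ε ≤ 1 → ∃ N₀ : ℕ, ∀ N : ℕ, N₀ ≤ N →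
    ∀ q : ℕ, q.Prime → (q : ℝ) ≤ Real.log N ^ B → ∀ Wd : ℕ, 0 < Wd →
    (Wd : ℝ) ≤ Real.exp (√(Real.log N)) → ∀ {Ω : Type} (S : Finset Ω) (F : Ω → Fin k → ℤ),
    (∀ m : ℕ, 0 < m → m ≤ N → m.Coprime Wd → ∀ b : Fin k → ℤ, (¬ ∀ i, (m : ℤ) ∣ b i) →
      ‖∑ ω ∈ S, wv (F ω) b m‖ ≤ (N : ℝ) ^ (-((k : ℝ) + 1)) * S.card) →
    ((S.filter (fun ω => F ω ∈ ExcN k q (Real.log N ^ (1 - ε)))).card : ℝ) ≤
      (N : ℝ) ^ (-(1 / (600 * K)) : ℝ) * S.card := by
  obtain ⟨K, hK, hsup⟩ := supply page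
  refine ⟨K, hK, fun k B ε hε0 hε1 => ?_⟩
  obtain ⟨z₀, hz₀⟩ := hsup (3 * B)
  have hev := (Real.tendsto_log_atTop.comp tendsto_natCast_atTop_atTop).eventually
    ((ev_par' k B K (max z₀ 2) hK).and (ev_parD B K hK hε0 hε1))
  obtain ⟨N₀, hN₀⟩ := eventually_atTop.1 hev
  refine ⟨max N₀ 1, fun N hN q hq hqB Wd hWd hWlog Ω S F hFD => ?_⟩
  have hN1 : 1 ≤ N := (le_max_right _ _).trans hN
  obtain ⟨z, hz⟩ : ∃ z : ℕ, z = ⌊Real.exp (√(Real.log N))⌋₊ := ⟨_, rfl⟩
  obtain ⟨hp, hd⟩ : Par' k B K (max z₀ 2) (Real.log N) z ∧ ParD B K ε (Real.log N) z := by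
    rw [hz]; exact hN₀ N ((le_max_left _ _).trans hN)
  have hWz : Wd ≤ z := by rw [hz]; exact Nat.le_floor hWlog
  have hKR : (1 : ℝ) ≤ K := by exact_mod_cast hK
  set L := Real.log N with hL
  have hNR : (0 : ℝ) < N := by exact_mod_cast hN1
  have hNexp : (N : ℝ) = Real.exp L := (Real.exp_log hNR).symm
  have hL0 : 0 < L := by linarith [hp.l1]
  have hsL : √L * √L = L := Real.mul_self_sqrt hL0.le
  have hz2 : 2 ≤ z := (le_max_right _ _).trans hp.z0
  have hzR : (0 : ℝ) < z := by exact_mod_cast (by omega : 0 < z)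
  have hlogz : Real.log z ≤ √L := by
    have := Real.log_le_log hzR hp.zle
    rwa [Real.log_exp] at this
  obtain ⟨P, lam, p1, p2, p3, p4, p5⟩ := hz₀ z ((le_max_left _ _).trans hp.z0) q hq
    (hqB.trans hp.qz)
  -- j and Q
  set j := ⌊√L / (2 * K)⌋₊ with hj
  have hjle : (j : ℝ) ≤ √L / (2 * K) := Nat.floor_le (by positivity)
  have hjge : √L / (2 * K) - 1 ≤ (j : ℝ) := by
    have := Nat.lt_floor_add_one (√L / (2 * K)); linarith
  have hjL : (j : ℝ) ≤ √L := hjle.trans (div_le_self (Real.sqrt_nonneg _) (by linarith))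
  have hjK : (j : ℝ) * (2 * K) ≤ √L := by
    rwa [le_div_iff₀ (by positivity)] at hjle
  set Q := Nat.sqrt N with hQ
  have hQ2 : Q ^ 2 ≤ N := by rw [sq]; exact Nat.sqrt_le N
  have hzKj : z ^ (K * j) ≤ Q := by
    rw [hQ, Nat.le_sqrt, ← sq]
    have h3 : (((z ^ (K * j)) ^ 2 : ℕ) : ℝ) ≤ N := by
      rw [← Real.log_le_log_iff (by positivity) hNR]
      push_cast
      rw [Real.log_pow, Real.log_pow, ← hL]
      push_cast
      calc (2 : ℝ) * (K * j * Real.log z) = (j * (2 * K)) * Real.log z := by ring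
        _ ≤ √L * √L := mul_le_mul hjK hlogz (by linarith [hp.l0]) (Real.sqrt_nonneg _)
        _ = L := hsL
    exact_mod_cast h3
  have hprod : ∀ D ∈ P.powersetCard j, ∏ t ∈ D, t ≤ Q := by
    intro D hD
    rw [mem_powersetCard] at hD
    have h1 : ∏ t ∈ D, t ≤ z ^ (K * j) := by
      calc ∏ t ∈ D, t ≤ ∏ t ∈ D, z ^ K := prod_le_prod' fun t ht => (p1 t (hD.1 ht)).2.2.1
        _ = z ^ (K * j) := by rw [prod_const, hD.2, pow_mul]
    exact h1.trans hzKj
  have hPc : (z : ℝ) ^ (1 / 100 : ℝ) ≤ (P.card : ℝ) := p5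
  have hjP : 2 * j ≤ P.card := by
    have : ((2 * j : ℕ) : ℝ) ≤ P.card := by
      push_cast
      have := hp.jz2
      linarith
    exact_mod_cast this
  have hPcle : P.card ≤ z ^ K := by
    have h1 : P ⊆ Icc 1 (z ^ K) := by
      intro t ht
      rw [mem_Icc]
      exact ⟨(p1 t ht).1.one_le, (p1 t ht).2.2.1⟩
    have := card_le_card h1
    rwa [Nat.card_Icc, Nat.add_sub_cancel] at this
  have hchle : P.card.choose j ≤ Q := by
    calc P.card.choose j ≤ P.card ^ j := Nat.choose_le_pow _ _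
      _ ≤ (z ^ K) ^ j := Nat.pow_le_pow_left hPcle j
      _ = z ^ (K * j) := by rw [pow_mul]
      _ ≤ Q := hzKj
  -- small primes
  set Sp := lam.primeFactors ∪ ((Icc 1 ⌊L ^ (1 - ε)⌋₊).filter (fun p : ℕ => p.Prime)) with hSp
  have hY0 : 0 ≤ L ^ (1 - ε) := by positivity
  have hSpc : (Sp.card : ℝ) ≤ lam.primeFactors.card + L ^ (1 - ε) := by
    have h1 : Sp.card ≤ lam.primeFactors.card + ⌊L ^ (1 - ε)⌋₊ := by
      rw [hSp]
      refine (card_union_le _ _).trans (Nat.add_le_add_left ?_ _)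
      refine (card_filter_le _ _).trans ?_
      rw [Nat.card_Icc, Nat.add_sub_cancel]
    have h2 : (Sp.card : ℝ) ≤ lam.primeFactors.card + (⌊L ^ (1 - ε)⌋₊ : ℝ) := by exact_mod_cast h1
    have h3 := Nat.floor_le hY0
    linarith
  -- denominators
  have hch := choose_lower' hjP
  have hden : Real.exp (Real.log z / 200 * j) ≤ (P.card.choose j : ℝ) * ((1 / 2) ^ (1 + 1)) ^ j := by
    have h1 : Real.exp (Real.log z / 200 * j) = ((z : ℝ) ^ (1 / 200 : ℝ)) ^ j := by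
      rw [Real.rpow_def_of_pos hzR, ← Real.exp_nat_mul]
      congr 1; ring
    have h4 : ((1 / 2 : ℝ) ^ (1 + 1)) ^ j = 1 / 4 ^ j := by
      rw [← one_div_pow]; norm_num
    rw [h1, h4, mul_one_div, le_div_iff₀ (by positivity), ← mul_pow]
    refine le_trans ?_ hch
    rcases Nat.eq_zero_or_pos j with h0 | h0
    · rw [h0]; simp
    · apply pow_le_pow_left₀ (by positivity)
      have hj0 : (0 : ℝ) < j := by exact_mod_cast h0
      rw [le_div_iff₀ (by positivity)]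
      calc (z : ℝ) ^ (1 / 200 : ℝ) * 4 * (2 * j) = (z : ℝ) ^ (1 / 200 : ℝ) * (8 * j) := by ring
        _ ≤ (z : ℝ) ^ (1 / 200 : ℝ) * (z : ℝ) ^ (1 / 200 : ℝ) := by
            apply mul_le_mul_of_nonneg_left _ (by positivity)
            have := hd.jz
            linarith
        _ = (z : ℝ) ^ (1 / 100 : ℝ) := by rw [← Real.rpow_add hzR]; norm_num
        _ ≤ P.card := hPc
  set B₀ := Real.exp (Real.log z / 200 * j) with hB₀
  have hB₀pos : 0 < B₀ := Real.exp_pos _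
  -- the covering
  have hcov := card_excQ (k := k) hq (lam := lam) (Q := Q) (j := j) (B := B₀) (Y := L ^ (1 - ε)) S F
    (P := P) (Sp := Sp) (fun t ht => (p1 t ht).1)
    (fun t ht => (p1 t ht).2.2.2.1) (fun t ht => (p1 t ht).2.2.2.2)
    (fun t ht => hp.zk.trans (p1 t ht).2.1.le) hprod hB₀pos hden p2 p3
    (fun p hp' hpl => by
      rw [hSp, mem_union]
      left
      exact Nat.mem_primeFactors.2 ⟨hp', hpl, p2.ne'⟩)
    (fun p hp' hp1 => by
      rw [hSp, mem_union, mem_filter, mem_Icc]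
      right
      exact ⟨⟨hp'.one_le, Nat.le_floor hp1⟩, hp'⟩)
    (δ := (N : ℝ) ^ (-((k : ℝ) + 1))) (by positivity)
    (by
      have h1 : (P.card.choose j : ℝ) ≤ N := by
        have h2 : P.card.choose j ≤ N := by
          calc P.card.choose j ≤ Q := hchle
            _ ≤ Q ^ 2 := Nat.le_self_pow (by norm_num) Q
            _ ≤ N := hQ2
        exact_mod_cast h2
      have h3 : (Q : ℝ) ≤ N := by
        have : Q ≤ N := (Nat.le_self_pow (by norm_num) Q).trans hQ2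
        exact_mod_cast this
      calc (N : ℝ) ^ (-((k : ℝ) + 1)) * ((P.card.choose j : ℝ) * (Q : ℝ) ^ k)
          ≤ (N : ℝ) ^ (-((k : ℝ) + 1)) * ((N : ℝ) * (N : ℝ) ^ k) := by gcongr
        _ = (N : ℝ) ^ (-((k : ℝ) + 1)) * (N : ℝ) ^ ((k : ℝ) + 1) := by
            rw [Real.rpow_add hNR, Real.rpow_natCast, Real.rpow_one]
            ring
        _ = 1 := by rw [← Real.rpow_add hNR, neg_add_cancel, Real.rpow_zero])
    (fun m hm hmQ hmP b hb => by
      apply hFD m hm (hmQ.trans hQ2) _ b hb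
      rw [Nat.coprime_comm]
      apply Nat.Coprime.symm
      apply Nat.coprime_of_dvd
      intro p hp' hpm hpW
      have h1 := (p1 p (hmP p hp' hpm)).2.1
      have h2 := Nat.le_of_dvd hWd hpW
      omega)
  refine hcov.trans ?_
  -- logarithms
  have hqR : (0 : ℝ) < q := by exact_mod_cast hq.pos
  have hlamR : (0 : ℝ) < lam := by exact_mod_cast p2
  have hlq : Real.log q ≤ B * Real.log L := by
    have := Real.log_le_log hqR hqB
    rwa [Real.log_pow] at this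
  have hlq0 : 0 ≤ Real.log q := Real.log_natCast_nonneg q
  have hllam : Real.log lam ≤ L ^ (19 / 20 : ℝ) / 2 := by
    refine p4.trans ?_
    have h1 : Real.log z ^ (19 / 10 : ℝ) ≤ √L ^ (19 / 10 : ℝ) :=
      Real.rpow_le_rpow (by linarith [hp.l0]) hlogz (by norm_num)
    have h2 : √L ^ (19 / 10 : ℝ) = L ^ (19 / 20 : ℝ) := by
      rw [Real.sqrt_eq_rpow, ← Real.rpow_mul hL0.le]; norm_num
    rw [h2] at h1
    linarith
  have hPcard : (lam.primeFactors.card : ℝ) ≤ L ^ (19 / 20 : ℝ) := by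
    have h1 := card_primeFactors_log p2
    have h2 : (1 : ℝ) / 2 ≤ Real.log 2 := by have := Real.log_two_gt_d9; linarith
    have h3 : (lam.primeFactors.card : ℝ) * (1 / 2) ≤ (lam.primeFactors.card : ℝ) * Real.log 2 :=
      mul_le_mul_of_nonneg_left h2 (Nat.cast_nonneg _)
    linarith
  have hlow : L / (400 * K) - √L ≤ Real.log z / 200 * j := by
    have a1 : (√L - 1) / 200 * (√L / (2 * K) - 1) ≤ Real.log z / 200 * j := by
      rcases le_total 0 (√L / (2 * K) - 1) with h0 | h0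
      · apply mul_le_mul _ hjge h0 (by linarith [hp.l0])
        have := hp.zge
        linarith
      · have h1 : 0 ≤ Real.log z / 200 * j := by
          have := hp.l0
          positivity
        have h2 : 0 ≤ (√L - 1) / 200 := by
          have : 1 ≤ √L := by
            rw [Real.one_le_sqrt]; exact hp.l1
          linarith
        nlinarith
    have a2 : (√L - 1) / 200 * (√L / (2 * K) - 1) =
        L / (400 * K) - (√L / 200 + √L / (400 * K) - 1 / 200) := by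
      have hid : ∀ s Kr : ℝ, Kr ≠ 0 → (s - 1) / 200 * (s / (2 * Kr) - 1) =
          s * s / (400 * Kr) - (s / 200 + s / (400 * Kr) - 1 / 200) := by
        intro s Kr hKr
        field_simp
        ring
      have h1 := hid (√L) K (by positivity)
      rwa [hsL] at h1
    have a3 : √L / (400 * K) ≤ √L / 400 := by
      apply div_le_div_of_nonneg_left (Real.sqrt_nonneg _) (by norm_num)
      linarith
    have a4 : 0 ≤ √L := Real.sqrt_nonneg _
    linarith
  have hlogL0 : 0 ≤ Real.log L := Real.log_nonneg hp.l1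
  have b1 : (lam : ℝ) ^ (2 * k) ≤ Real.exp (k * L ^ (19 / 20 : ℝ)) := by
    rw [← Real.log_le_iff_le_exp (by positivity), Real.log_pow]
    push_cast
    calc (2 : ℝ) * k * Real.log lam ≤ 2 * k * (L ^ (19 / 20 : ℝ) / 2) :=
          mul_le_mul_of_nonneg_left hllam (by positivity)
      _ = _ := by ring
  have b2 : (q : ℝ) ^ Sp.card ≤ Real.exp (B * Real.log L * (L ^ (19 / 20 : ℝ) + L ^ (1 - ε))) := by
    rw [← Real.log_le_iff_le_exp (by positivity), Real.log_pow]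
    calc (Sp.card : ℝ) * Real.log q ≤ (L ^ (19 / 20 : ℝ) + L ^ (1 - ε)) * Real.log q :=
          mul_le_mul_of_nonneg_right (by linarith) hlq0
      _ ≤ (L ^ (19 / 20 : ℝ) + L ^ (1 - ε)) * (B * Real.log L) :=
          mul_le_mul_of_nonneg_left hlq (by positivity)
      _ = _ := by ring
  obtain ⟨sc, hsc⟩ : ∃ sc : ℝ, sc = (S.card : ℝ) := ⟨_, rfl⟩
  have hsc0 : 0 ≤ sc := by rw [hsc]; exact Nat.cast_nonneg _
  rw [← hsc]
  have b4 : 2 * sc / B₀ ≤ 2 * sc * Real.exp (-(L / (400 * K) - √L)) := by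
    rw [Real.exp_neg, ← div_eq_mul_inv]
    apply div_le_div_of_nonneg_left (by positivity) (Real.exp_pos _)
    rw [hB₀]
    exact Real.exp_le_exp.2 hlow
  have b5 : (4 : ℝ) ≤ Real.exp (Real.log 2 + 1) := by
    rw [Real.exp_add, Real.exp_log (by norm_num)]
    have := Real.exp_one_gt_d9
    linarith
  calc 2 * (lam : ℝ) ^ (2 * k) * (q : ℝ) ^ Sp.card * (2 * sc / B₀)
      ≤ 2 * Real.exp (k * L ^ (19 / 20 : ℝ)) *
          Real.exp (B * Real.log L * (L ^ (19 / 20 : ℝ) + L ^ (1 - ε))) *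
          (2 * sc * Real.exp (-(L / (400 * K) - √L))) := by gcongr
    _ = 4 * (Real.exp (k * L ^ (19 / 20 : ℝ)) *
          Real.exp (B * Real.log L * (L ^ (19 / 20 : ℝ) + L ^ (1 - ε))) *
          Real.exp (-(L / (400 * K) - √L))) * sc := by ring
    _ ≤ Real.exp (Real.log 2 + 1) * (Real.exp (k * L ^ (19 / 20 : ℝ)) *
          Real.exp (B * Real.log L * (L ^ (19 / 20 : ℝ) + L ^ (1 - ε))) *
          Real.exp (-(L / (400 * K) - √L))) * sc := by gcongr
    _ = Real.exp ((Real.log 2 + 1) + (k * L ^ (19 / 20 : ℝ) +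
          B * Real.log L * (L ^ (19 / 20 : ℝ) + L ^ (1 - ε)) + -(L / (400 * K) - √L))) * sc := by
        rw [Real.exp_add (Real.log 2 + 1), Real.exp_add (_ + _) (-(L / (400 * K) - √L)),
          Real.exp_add (k * L ^ (19 / 20 : ℝ))]
    _ ≤ (N : ℝ) ^ (-(1 / (600 * K)) : ℝ) * sc := by
        apply mul_le_mul_of_nonneg_right _ hsc0
        rw [hNexp, ← Real.exp_mul, Real.exp_le_exp]
        have hf := hp.fin
        have hf2 := hd.fin
        have hk0 : 0 ≤ (k : ℝ) * Real.log 12 := by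
          have : 0 ≤ Real.log 12 := Real.log_nonneg (by norm_num)
          positivity
        have hBl0 : 0 ≤ (B : ℝ) * Real.log L := by positivity
        have hBl : (B : ℝ) * Real.log L * L ^ (19 / 20 : ℝ) ≤ B * Real.log L * (2 * L ^ (19 / 20 : ℝ)) := by
          apply mul_le_mul_of_nonneg_left _ hBl0
          have : 0 ≤ L ^ (19 / 20 : ℝ) := by positivity
          linarith
        have e1 : (B : ℝ) * Real.log L * (L ^ (19 / 20 : ℝ) + L ^ (1 - ε)) =
            B * Real.log L * L ^ (19 / 20 : ℝ) + B * Real.log L * L ^ (1 - ε) := by ring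
        have e2 : (B : ℝ) * Real.log L * (L ^ (1 - ε) + 1) =
            B * Real.log L * L ^ (1 - ε) + B * Real.log L := by ring
        have e3 : (1 / (400 * (K : ℝ)) - 1 / (500 * K)) * L = L / (400 * K) - 1 / (500 * K) * L := by ring
        have e4 : (1 / (500 * (K : ℝ)) - 1 / (600 * K)) * L = 1 / (500 * K) * L - 1 / (600 * K) * L := by
          ring
        have e5 : L * (-(1 / (600 * (K : ℝ)))) = -(1 / (600 * K) * L) := by ring
        rw [e3] at hf
        rw [e4, e2] at hf2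
        rw [e1, e5]
        linarith

open Classical in
/-- all exponents with a prime factor at most `(log N) ^ B` -/
theorem meas : ∃ δ : ℝ, 0 < δ ∧ δ ≤ 1 ∧ ∀ (k B : ℕ) (ε : ℝ), 0 < ε → ε ≤ 1 → ∃ N₀ : ℕ, ∀ N : ℕ,
    N₀ ≤ N → ∀ Wd : ℕ, 0 < Wd → (Wd : ℝ) ≤ Real.exp (√(Real.log N)) →
    ∀ {Ω : Type} (S : Finset Ω) (F : Ω → Fin k → ℤ),
    (∀ m : ℕ, 0 < m → m ≤ N → m.Coprime Wd → ∀ b : Fin k → ℤ, (¬ ∀ i, (m : ℤ) ∣ b i) →
      ‖∑ ω ∈ S, wv (F ω) b m‖ ≤ (N : ℝ) ^ (-((k : ℝ) + 1)) * S.card) →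
    ((S.filter (fun ω => ∃ n q : ℕ, q.Prime ∧ q ∣ n ∧ (q : ℝ) ≤ Real.log N ^ B ∧
      F ω ∈ ExcN k n (Real.log N ^ (1 - ε)))).card : ℝ) ≤ (N : ℝ) ^ (-δ) * S.card := by
  obtain ⟨K, hK, hone⟩ := meas_one
  have hKR : (1 : ℝ) ≤ K := by exact_mod_cast hK
  refine ⟨1 / (700 * K), by positivity, ?_, fun k B ε h0 h1 => ?_⟩
  · rw [div_le_one (by positivity)]
    linarith
  obtain ⟨N₁, hN₁⟩ := hone k B ε h0 h1
  have hη : (0 : ℝ) < 1 / (600 * K) - 1 / (700 * K) := by
    have : (1 : ℝ) / (600 * K) - 1 / (700 * K) = 1 / (4200 * K) := by field_simp; norm_num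
    rw [this]; positivity
  have v1 : ∀ᶠ N : ℕ in atTop, (Real.log N) ^ B ≤ (N : ℝ) ^ (1 / (600 * K) - 1 / (700 * K) : ℝ) := by
    have h := (isLittleO_log_rpow_rpow_atTop (s := 1 / (600 * K) - 1 / (700 * K)) B
      hη).bound (show (0 : ℝ) < 1 by norm_num)
    filter_upwards [tendsto_natCast_atTop_atTop.eventually h] with z hz
    rw [one_mul, Real.norm_of_nonneg (Real.rpow_nonneg (Nat.cast_nonneg z) _)] at hz
    refine le_trans ?_ hz
    refine le_trans (le_of_eq ?_) (Real.le_norm_self _)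
    rw [Real.rpow_natCast]
  have v2 : ∀ᶠ N : ℕ in atTop, 1 ≤ Real.log N :=
    (Real.tendsto_log_atTop.comp tendsto_natCast_atTop_atTop).eventually_ge_atTop _
  obtain ⟨N₂, hN₂⟩ := eventually_atTop.1 (v1.and v2)
  refine ⟨max (max N₁ N₂) 1, fun N hN Wd hWd hWlog Ω S F hFD => ?_⟩
  simp only [max_le_iff] at hN
  obtain ⟨⟨g1, g2⟩, g3⟩ := hN
  obtain ⟨w1, w2⟩ := hN₂ N g2
  have hNR : (0 : ℝ) < N := by exact_mod_cast g3
  set L := Real.log (N : ℝ) with hL
  have hLB : 0 ≤ L ^ B := by positivity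
  set R := (Icc 1 ⌊L ^ B⌋₊).filter (fun q : ℕ => q.Prime) with hR
  have hRc : (R.card : ℝ) ≤ (N : ℝ) ^ (1 / (600 * K) - 1 / (700 * K) : ℝ) := by
    calc (R.card : ℝ) ≤ ((Icc 1 ⌊L ^ B⌋₊).card : ℝ) := by
          exact_mod_cast card_filter_le _ _
      _ = (⌊L ^ B⌋₊ : ℝ) := by rw [Nat.card_Icc, Nat.add_sub_cancel]
      _ ≤ L ^ B := Nat.floor_le hLB
      _ ≤ _ := w1
  set Sq : ℕ → Finset Ω := fun q => S.filter (fun ω => F ω ∈ ExcN k q (L ^ (1 - ε))) with hSq
  have hsub : S.filter (fun ω => ∃ n q : ℕ, q.Prime ∧ q ∣ n ∧ (q : ℝ) ≤ L ^ B ∧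
      F ω ∈ ExcN k n (L ^ (1 - ε))) ⊆ R.biUnion Sq := by
    intro ω hω
    rw [mem_filter] at hω
    obtain ⟨hωS, n, q, h1, h2, h3, A, hA, h4⟩ := hω
    rw [mem_biUnion]
    refine ⟨q, ?_, ?_⟩
    · rw [hR, mem_filter, mem_Icc]
      exact ⟨⟨h1.one_le, Nat.le_floor h3⟩, h1⟩
    · rw [hSq, mem_filter]
      exact ⟨hωS, A, hA, Exc_mono_exp h2 h4⟩
  calc ((S.filter (fun ω => ∃ n q : ℕ, q.Prime ∧ q ∣ n ∧ (q : ℝ) ≤ L ^ B ∧
        F ω ∈ ExcN k n (L ^ (1 - ε)))).card : ℝ) ≤ ((R.biUnion Sq).card : ℝ) := by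
        exact_mod_cast card_le_card hsub
    _ ≤ ∑ q ∈ R, ((Sq q).card : ℝ) := by exact_mod_cast card_biUnion_le
    _ ≤ ∑ q ∈ R, (N : ℝ) ^ (-(1 / (600 * K)) : ℝ) * S.card := by
        apply sum_le_sum
        intro q hq
        rw [hR, mem_filter, mem_Icc] at hq
        have hqB : (q : ℝ) ≤ L ^ B := by
          have h1 : (q : ℝ) ≤ (⌊L ^ B⌋₊ : ℝ) := by exact_mod_cast hq.1.2
          exact h1.trans (Nat.floor_le hLB)
        exact hN₁ N g1 q hq.2 hqB Wd hWd hWlog S F hFD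
    _ = R.card * ((N : ℝ) ^ (-(1 / (600 * K)) : ℝ) * S.card) := by rw [sum_const, nsmul_eq_mul]
    _ ≤ (N : ℝ) ^ (1 / (600 * K) - 1 / (700 * K) : ℝ) * ((N : ℝ) ^ (-(1 / (600 * K)) : ℝ) * S.card) := by
        gcongr
    _ = (N : ℝ) ^ (-(1 / (700 * K)) : ℝ) * S.card := by
        rw [← mul_assoc, ← Real.rpow_add hNR]
        congr 2
        ring

end Pool.Agent.Y353.FP
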