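import Pool.Agent.Y353.FD.Top
import Pool.Agent.Y353.FP.Param

/-!
Project FP (helper353): the exceptional set of digital maps, exponents up to a power of the number of digits.
-/

set_option autoImplicit false

namespace Pool.Agent.Y353.FP

open Finset Filter Topology
open Pool.Agent.TH194.BL Pool.Agent.Y353.FD

open Classical in
theorem digits_excP : ∃ δ : ℝ, 0 < δ ∧ ∀ (k A0 B : ℕ), 0 < B → ∀ κ : ℝ, 0 < κ → ∀ Wd : ℕ, 0 < Wd →
    ∀ (Bq : ℕ) (ε : ℝ), 0 < ε → ∀ᶠ L : ℕ in atTop,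
    ∀ {ι : Type} [Fintype ι] [DecidableEq ι] (D : ι → Finset ℤ) (v : ι → Fin k → ℤ),
    ManyGood Wd A0 B κ L D v →
    (((Fintype.piFinset D).filter (fun ω => ∃ n q : ℕ, q.Prime ∧ q ∣ n ∧ (q : ℝ) ≤ (L : ℝ) ^ Bq ∧
      lin v ω ∈ ExcN k n ((L : ℝ) ^ (1 / 2 - ε)))).card : ℝ) ≤
      Real.exp (-(δ * c0 k B κ) * √L) * (Fintype.piFinset D).card := by
  obtain ⟨δ, hδ, hδ1, hm⟩ := meas
  refine ⟨δ / 2, by positivity, fun k A0 B hB κ hκ Wd hWd Bq ε hε => ?_⟩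
  set ε' : ℝ := min ε (1 / 8) with hε'
  have h0' : 0 < ε' := lt_min hε (by norm_num)
  have h1' : ε' ≤ ε := min_le_left _ _
  have h2' : ε' ≤ 1 / 8 := min_le_right _ _
  have hc0 := c0_pos k hB hκ
  obtain ⟨N₀, hN₀⟩ := hm k (2 * Bq + 1) ε' h0' (h2'.trans (by norm_num))
  have hlogN : Tendsto (fun L : ℕ => √(Real.log (NN k B κ L))) atTop atTop :=
    Real.tendsto_sqrt_atTop.comp (Real.tendsto_log_atTop.comp
      (tendsto_natCast_atTop_atTop.comp (tendsto_NN k hB hκ)))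
  have t1 : ∀ᶠ L : ℕ in atTop, (Wd : ℝ) ≤ Real.exp (√(Real.log (NN k B κ L))) :=
    (Real.tendsto_exp_atTop.comp hlogN).eventually_ge_atTop _
  have t2 : ∀ᶠ L : ℕ in atTop, 1 / (c0 k B κ / 2) ^ (2 * Bq + 1) ≤ √(L : ℝ) :=
    tendsto_sqrt_nat.eventually_ge_atTop _
  filter_upwards [fd_digits k A0 B hB κ hκ, ev_NN k hB hκ (max N₀ 1) Wd hε h0' h1' h2', t1, t2,
    eventually_gt_atTop 0] with L h1 h2 h7 h8 hL0 ι _ _ D v hgood
  obtain ⟨h3, h4, h5, h6⟩ := h2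
  have hfd := h1 Wd D v hgood
  have hmain := hN₀ (NN k B κ L) ((le_max_left _ _).trans h3) Wd hWd h7 (Fintype.piFinset D)
    (fun ω => lin v ω) (fun m hm hmN hmW b hb => hfd m hm hmN hmW b hb)
  have hN1 : 1 ≤ NN k B κ L := (le_max_right _ _).trans h3
  have hN0 : (0 : ℝ) < (NN k B κ L : ℕ) := by exact_mod_cast hN1
  have hLr : (0 : ℝ) < L := by exact_mod_cast hL0
  have hx0 : 0 < √(L : ℝ) := Real.sqrt_pos.2 hLr
  have hqL : (L : ℝ) ^ Bq ≤ Real.log (NN k B κ L) ^ (2 * Bq + 1) := by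
    have e1 : 0 < (c0 k B κ / 2) ^ (2 * Bq + 1) := by positivity
    rw [div_le_iff₀ e1] at h8
    have e2 : (L : ℝ) ^ Bq = √(L : ℝ) ^ (2 * Bq) := by
      rw [pow_mul, Real.sq_sqrt hLr.le]
    calc (L : ℝ) ^ Bq = √(L : ℝ) ^ (2 * Bq) * 1 := by rw [e2, mul_one]
      _ ≤ √(L : ℝ) ^ (2 * Bq) * (√(L : ℝ) * (c0 k B κ / 2) ^ (2 * Bq + 1)) := by gcongr
      _ = ((c0 k B κ / 2) * √(L : ℝ)) ^ (2 * Bq + 1) := by rw [mul_pow]; ring
      _ ≤ _ := pow_le_pow_left₀ (by positivity) h5 _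
  calc (((Fintype.piFinset D).filter (fun ω => ∃ n q : ℕ, q.Prime ∧ q ∣ n ∧
        (q : ℝ) ≤ (L : ℝ) ^ Bq ∧ lin v ω ∈ ExcN k n ((L : ℝ) ^ (1 / 2 - ε)))).card : ℝ)
      ≤ (((Fintype.piFinset D).filter (fun ω => ∃ n q : ℕ, q.Prime ∧ q ∣ n ∧
        (q : ℝ) ≤ Real.log (NN k B κ L) ^ (2 * Bq + 1) ∧
        lin v ω ∈ ExcN k n (Real.log (NN k B κ L) ^ (1 - ε')))).card : ℝ) := by
        apply Nat.cast_le.2
        apply card_le_card
        intro ω hω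
        rw [mem_filter] at hω ⊢
        obtain ⟨hω1, n, q, g1, g2, g3, A, g4, g5⟩ := hω
        exact ⟨hω1, n, q, g1, g2, g3.trans hqL, A, g4, Exc_mono (Real.exp_le_exp.1 h6) g5⟩
    _ ≤ ((NN k B κ L : ℕ) : ℝ) ^ (-δ) * (Fintype.piFinset D).card := hmain
    _ ≤ Real.exp (-(δ / 2 * c0 k B κ) * √L) * (Fintype.piFinset D).card := by
        apply mul_le_mul_of_nonneg_right _ (Nat.cast_nonneg _)
        rw [Real.rpow_def_of_pos hN0]
        apply Real.exp_le_exp.2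
        have e3 : (c0 k B κ / 2 * √(L : ℝ)) * δ ≤ Real.log (NN k B κ L) * δ := by gcongr
        linarith

end Pool.Agent.Y353.FP
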