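import Mathlib
import Pool.Agent.Y353.FD.Poly
import Pool.Agent.Y353.FD.Mirror
import Pool.Agent.Y353.FP.Top
import Pool.Agent.Y353.FP.Dens
import Pool.Agent.Y353.FP.PairQ

/-!
Project FP (helper353): pairs of bases from digital families, all exponents.
-/

set_option autoImplicit false

namespace Pool.Agent.Y353.FP

open Finset Filter Topology
open Pool.Agent.TH194.BL Pool.Agent.Y353.FD Pool.Agent.Y353.PS

/-- `(x, y, z, C)` is a solution with the bases `A` and `B` -/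
def Sol (A B x y z C : ℕ) : Prop :=
  0 < x ∧ 0 < y ∧ 2 ≤ z ∧ 0 < C ∧
    (A ^ x + B ^ y = C ^ z ∨ A ^ x + C ^ z = B ^ y ∨ B ^ y + C ^ z = A ^ x)

/-- a solution for the pair `(A, B)` with the side conditions -/
def BadPair (K L A B : ℕ) : Prop :=
  ∃ x y z C : ℕ, Sol A B x y z C ∧
    ((∃ p : ℕ, p.Prime ∧ p ≤ L ^ K ∧ p ∣ A * B) ∨ ((min x y : ℕ) : ℝ) ≤ Real.exp ((L : ℝ) ^ K))

theorem BadPair.mono {K K' L A B : ℕ} (hL : 1 ≤ L) (hK : K ≤ K') (h : BadPair K L A B) :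
    BadPair K' L A B := by
  obtain ⟨x, y, z, C, hs, hor⟩ := h
  refine ⟨x, y, z, C, hs, ?_⟩
  rcases hor with ⟨p, hp, hpL, hpd⟩ | h
  · exact Or.inl ⟨p, hp, hpL.trans (Nat.pow_le_pow_right hL hK), hpd⟩
  · refine Or.inr (h.trans (Real.exp_le_exp.2 (pow_le_pow_right₀ (by exact_mod_cast hL) hK)))

open Classical in
theorem digital : ∃ δ : ℝ, 0 < δ ∧ ∀ (A0 B : ℕ), 0 < B → ∀ κ : ℝ, 0 < κ → ∀ Wd : ℕ, 0 < Wd → ∀ K : ℕ,
    ∀ᶠ L : ℕ in atTop, ∀ Λ : ℕ, L ≤ Λ → Λ ≤ L ^ K →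
    ∀ {ι : Type} [Fintype ι] [DecidableEq ι] (D : ι → Finset ℤ) (v : ι → Fin 2 → ℤ),
    ManyGood Wd A0 B κ L D v →
    (∀ ω ∈ Fintype.piFinset D, ∀ l, ((lin v ω l : ℤ) : ℝ) ≤ Real.exp (K * Λ)) →
    (((Fintype.piFinset D).filter (fun ω => ∃ A B : ℕ, 0 < A ∧ 0 < B ∧ lin v ω 0 = (A : ℤ) ∧
      lin v ω 1 = (B : ℤ) ∧ Nat.Coprime A B ∧ BadPair K Λ A B)).card : ℝ) ≤
      Real.exp (-(δ * c0 2 B κ) * √L) * (Fintype.piFinset D).card := by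
  obtain ⟨δ, hδ, hdig⟩ := digits_excP
  refine ⟨δ, hδ, fun A0 B hB κ hκ Wd hWd K => ?_⟩
  obtain ⟨B', L₀, hpair⟩ := pair_exc K K
  filter_upwards [hdig 2 A0 B hB κ hκ Wd hWd (K * B') (1 / 4) (by norm_num), eventually_ge_atTop L₀,
    eventually_ge_atTop 1] with L h1 h2 h3 Λ hLΛ hΛL ι _ _ D v hgood hheight
  refine le_trans ?_ (h1 D v hgood)
  apply Nat.cast_le.2
  apply card_le_card
  intro ω hω
  rw [mem_filter] at hω ⊢
  obtain ⟨hωD, A, B₁, hA, hB₁, e1, e2, hco, x, y, z, C, ⟨hx, hy, hz, hC, heq⟩, hor⟩ := hω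
  have hLR : (1 : ℝ) ≤ L := by exact_mod_cast h3
  have hA' : (A : ℝ) ≤ Real.exp (K * Λ) := by
    have := hheight ω hωD 0
    rw [e1] at this
    exact_mod_cast this
  have hB' : (B₁ : ℝ) ≤ Real.exp (K * Λ) := by
    have := hheight ω hωD 1
    rw [e2] at this
    exact_mod_cast this
  obtain ⟨n, q, hq, hqn, hqL, hex⟩ := hpair Λ (h2.trans hLΛ) A B₁ x y z C hA hB₁ hA' hB' hco hx hy hz hC heq (by
    rcases hor with ⟨p, hp, hpL, hpd⟩ | h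
    · exact Or.inl ⟨p, hp, by exact_mod_cast hpL, hpd⟩
    · exact Or.inr h)
  refine ⟨hωD, n, q, hq, hqn, hqL.trans ?_, ![A, B₁], ?_, ?_⟩
  · have h5 : (Λ : ℝ) ≤ (L : ℝ) ^ K := by exact_mod_cast hΛL
    calc (Λ : ℝ) ^ B' ≤ ((L : ℝ) ^ K) ^ B' := pow_le_pow_left₀ (Nat.cast_nonneg _) h5 _
      _ = (L : ℝ) ^ (K * B') := by rw [pow_mul]
  · intro i
    fin_cases i
    · exact e1.symm
    · exact e2.symm
  · exact Exc_mono (Real.one_le_rpow hLR (by norm_num)) hex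

open Classical in
theorem digital_all (A0 B : ℕ) (hB : 0 < B) (κ : ℝ) (hκ : 0 < κ) (Wd : ℕ) (hWd : 0 < Wd) (K : ℕ)
    (hK : 1 ≤ K) {ε : ℝ} (hε : 0 < ε) :
    ∀ᶠ L : ℕ in atTop, ∀ Λ : ℕ, L ≤ Λ → Λ ≤ L ^ K →
    ∀ {ι : Type} [Fintype ι] [DecidableEq ι] (D : ι → Finset ℤ) (v : ι → Fin 2 → ℤ),
    ManyGood Wd A0 B κ L D v →
    (∀ ω ∈ Fintype.piFinset D, ∀ l, ((lin v ω l : ℤ) : ℝ) ≤ Real.exp (K * Λ)) →
    (((Fintype.piFinset D).filter (fun ω => ∃ A B : ℕ, 0 < A ∧ 0 < B ∧ lin v ω 0 = (A : ℤ) ∧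
      lin v ω 1 = (B : ℤ) ∧ Nat.Coprime A B ∧ ∃ x y z C : ℕ, Sol A B x y z C)).card : ℝ) ≤
      ε * (Fintype.piFinset D).card := by
  obtain ⟨δ, hδ, hdig⟩ := digital
  obtain ⟨T₀, hT₀⟩ := rough_digits 2 A0 B (by norm_num) hB κ hκ Wd hWd (show 0 < ε / 2 by positivity)
  have hc : 0 < δ * c0 2 B κ := mul_pos hδ (c0_pos 2 hB hκ)
  have t1 : ∀ᶠ L : ℕ in atTop, Real.exp (-(δ * c0 2 B κ) * √(L : ℝ)) ≤ ε / 2 := by
    have h1 : Tendsto (fun L : ℕ => Real.exp (-((δ * c0 2 B κ) * √(L : ℝ)))) atTop (𝓝 0) :=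
      Real.tendsto_exp_neg_atTop_nhds_zero.comp (tendsto_sqrt_nat.const_mul_atTop hc)
    have h2 := h1.eventually_le_const (show (0 : ℝ) < ε / 2 by positivity)
    filter_upwards [h2] with L hL
    rw [neg_mul]
    exact hL
  filter_upwards [hdig A0 B hB κ hκ Wd hWd K, hT₀, t1, eventually_ge_atTop (T₀ + 1)] with
    L h1 h2 h3 h4 Λ hLΛ hΛL ι _ _ D v hgood hheight
  have e1 := h1 Λ hLΛ hΛL D v hgood hheight
  have e2 := h2 D v hgood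
  set X1 := (Fintype.piFinset D).filter (fun ω => ∃ A B : ℕ, 0 < A ∧ 0 < B ∧ lin v ω 0 = (A : ℤ) ∧
      lin v ω 1 = (B : ℤ) ∧ Nat.Coprime A B ∧ BadPair K Λ A B) with hX1
  set X2 := (Fintype.piFinset D).filter (fun ω => ∀ p : ℕ, p.Prime → p ≤ T₀ → ∀ l,
      ¬ (p : ℤ) ∣ lin v ω l) with hX2
  have hsub : (Fintype.piFinset D).filter (fun ω => ∃ A B : ℕ, 0 < A ∧ 0 < B ∧ lin v ω 0 = (A : ℤ) ∧
      lin v ω 1 = (B : ℤ) ∧ Nat.Coprime A B ∧ ∃ x y z C : ℕ, Sol A B x y z C) ⊆ X1 ∪ X2 := by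
    intro ω hω
    rw [mem_filter] at hω
    obtain ⟨hωD, A, B₁, hA, hB₁, f1, f2, hco, x, y, z, C, hs⟩ := hω
    rw [mem_union]
    by_cases hp : ∃ p : ℕ, p.Prime ∧ p ≤ T₀ ∧ p ∣ A * B₁
    · left
      rw [hX1, mem_filter]
      obtain ⟨p, hp, hpT, hpd⟩ := hp
      refine ⟨hωD, A, B₁, hA, hB₁, f1, f2, hco, x, y, z, C, hs, Or.inl ⟨p, hp, ?_, hpd⟩⟩
      calc p ≤ Λ := by omega
        _ = Λ ^ 1 := (pow_one Λ).symm
        _ ≤ Λ ^ K := Nat.pow_le_pow_right (by omega) hK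
    · right
      rw [hX2, mem_filter]
      refine ⟨hωD, fun p hpp hpT l hd => hp ⟨p, hpp, hpT, ?_⟩⟩
      fin_cases l
      · have : (p : ℤ) ∣ (A : ℤ) := by rw [← f1]; exact hd
        exact (Int.natCast_dvd_natCast.1 this).mul_right _
      · have : (p : ℤ) ∣ (B₁ : ℤ) := by rw [← f2]; exact hd
        exact (Int.natCast_dvd_natCast.1 this).mul_left _
  have hS0 : (0 : ℝ) ≤ (Fintype.piFinset D).card := Nat.cast_nonneg _
  calc (((Fintype.piFinset D).filter (fun ω => ∃ A B : ℕ, 0 < A ∧ 0 < B ∧ lin v ω 0 = (A : ℤ) ∧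
      lin v ω 1 = (B : ℤ) ∧ Nat.Coprime A B ∧ ∃ x y z C : ℕ, Sol A B x y z C)).card : ℝ)
      ≤ ((X1 ∪ X2).card : ℝ) := by exact_mod_cast card_le_card hsub
    _ ≤ (X1.card : ℝ) + X2.card := by exact_mod_cast card_union_le _ _
    _ ≤ ε / 2 * (Fintype.piFinset D).card + ε / 2 * (Fintype.piFinset D).card := by
        have := mul_le_mul_of_nonneg_right h3 hS0
        linarith
    _ = ε * (Fintype.piFinset D).card := by ring

/-- independent digital families -/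
theorem manyGood_sum {ι₁ ι₂ : Type} [Fintype ι₁] [Fintype ι₂] {W₁ W₂ A₁ A₂ B₁ B₂ L₁ L₂ : ℕ} {κ₁ κ₂ : ℝ}
    {D₁ : ι₁ → Finset ℤ} {D₂ : ι₂ → Finset ℤ} {v₁ : ι₁ → Fin 1 → ℤ} {v₂ : ι₂ → Fin 1 → ℤ}
    (h₁ : ManyGood W₁ A₁ B₁ κ₁ L₁ D₁ v₁) (h₂ : ManyGood W₂ A₂ B₂ κ₂ L₂ D₂ v₂) :
    ManyGood (W₁ * W₂) (max A₁ A₂) (max B₁ B₂) (min κ₁ κ₂) (min L₁ L₂)
      (Sum.elim D₁ D₂ : ι₁ ⊕ ι₂ → Finset ℤ)
      (Sum.elim (fun i => ![v₁ i 0, 0]) (fun j => ![0, v₂ j 0]) : ι₁ ⊕ ι₂ → Fin 2 → ℤ) := by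
  classical
  intro m K hm hmK hmW b hb
  have hm1 : m.Coprime W₁ := Nat.Coprime.coprime_mul_right_right hmW
  have hm2 : m.Coprime W₂ := Nat.Coprime.coprime_mul_left_right hmW
  have hmR : (0 : ℝ) ≤ m := Nat.cast_nonneg _
  by_cases hb0 : (m : ℤ) ∣ b 0
  · have hb1 : ¬ (m : ℤ) ∣ b 1 := by
      intro h
      apply hb
      intro l
      fin_cases l
      · exact hb0
      · exact h
    obtain ⟨J, hJ, hJg⟩ := h₂ m K hm hmK hm2 (fun _ => b 1) (fun h => hb1 (h 0))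
    refine ⟨J.map ⟨Sum.inr, Sum.inr_injective⟩, ?_, ?_⟩
    · rw [card_map]
      refine le_trans ?_ hJ
      exact Nat.div_le_div (min_le_right _ _) (by omega) (by
        have := hJ
        rcases Nat.eq_zero_or_pos (K + A₂) with h0 | h0
        · exfalso
          have : K = 0 := by omega
          rw [this] at hmK
          omega
        · omega)
    · intro i hi
      rw [Finset.mem_map] at hi
      obtain ⟨j, hj, rfl⟩ := hi
      obtain ⟨g1, d1, hd1, d2, hd2, hne, g2⟩ := hJg j hj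
      refine ⟨g1.trans (le_max_right _ _), d1, hd1, d2, hd2, hne, ?_⟩
      refine le_trans (mul_le_mul_of_nonneg_right (min_le_right _ _) hmR) (g2.trans (le_of_eq ?_))
      congr 3
      rw [Fin.sum_univ_two, Fin.sum_univ_one]
      simp
  · obtain ⟨J, hJ, hJg⟩ := h₁ m K hm hmK hm1 (fun _ => b 0) (fun h => hb0 (h 0))
    refine ⟨J.map ⟨Sum.inl, Sum.inl_injective⟩, ?_, ?_⟩
    · rw [card_map]
      refine le_trans ?_ hJ
      exact Nat.div_le_div (min_le_left _ _) (by omega) (by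
        rcases Nat.eq_zero_or_pos (K + A₁) with h0 | h0
        · exfalso
          have : K = 0 := by omega
          rw [this] at hmK
          omega
        · omega)
    · intro i hi
      rw [Finset.mem_map] at hi
      obtain ⟨j, hj, rfl⟩ := hi
      obtain ⟨g1, d1, hd1, d2, hd2, hne, g2⟩ := hJg j hj
      refine ⟨g1.trans (le_max_left _ _), d1, hd1, d2, hd2, hne, ?_⟩
      refine le_trans (mul_le_mul_of_nonneg_right (min_le_left _ _) hmR) (g2.trans (le_of_eq ?_))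
      congr 3
      rw [Fin.sum_univ_two, Fin.sum_univ_one]
      simp

end Pool.Agent.Y353.FP
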