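import Mathlib
import Pool.Agent.Y353.FP.Fam

/-!
Project FP (helper353): mirror pairs, pairs of numbers with restricted digits, pairs of values of a polynomial.
-/

set_option autoImplicit false

namespace Pool.Agent.Y353.FP

open Finset Filter Topology
open Pool.Agent.TH194.BL Pool.Agent.Y353.FD Pool.Agent.Y353.PS

/-- The mirror image of a number `n < g ^ L` in base `g`. -/
def mirror (g L n : ℕ) : ℕ := ∑ i ∈ range L, n / g ^ i % g * g ^ (L - 1 - i)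

theorem digits_sum (g : ℕ) (hg : 0 < g) : ∀ (L n : ℕ), n < g ^ L →
    ∑ i ∈ range L, n / g ^ i % g * g ^ i = n := by
  intro L
  induction L with
  | zero => intro n hn; simp at hn; simp [hn]
  | succ L ih =>
    intro n hn
    rw [sum_range_succ']
    have h1 : n / g < g ^ L := by
      rw [Nat.div_lt_iff_lt_mul hg]
      rw [pow_succ] at hn
      exact hn
    have h2 := ih (n / g) h1
    have h3 : ∑ i ∈ range L, n / g ^ (i + 1) % g * g ^ (i + 1) = g * (n / g) := by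
      conv_rhs => rw [← h2, mul_sum]
      refine sum_congr rfl fun i _ => ?_
      rw [Nat.div_div_eq_div_mul, ← pow_succ', pow_succ]
      ring
    rw [h3, pow_zero, Nat.div_one, mul_one]
    exact Nat.div_add_mod n g

/-- the digits as a vector -/
def dig (g L n : ℕ) : Fin L → ℤ := fun i => ((n / g ^ (i : ℕ) % g : ℕ) : ℤ)

theorem sum_dig {g L n : ℕ} (hg : 0 < g) (hn : n < g ^ L) :
    ∑ i, dig g L n i * (g : ℤ) ^ (i : ℕ) = (n : ℤ) := by
  have h1 := digits_sum g hg L n hn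
  rw [← Fin.sum_univ_eq_sum_range (fun i => n / g ^ i % g * g ^ i) L] at h1
  conv_rhs => rw [← h1]
  push_cast
  refine sum_congr rfl fun i _ => ?_
  simp [dig]

theorem lin_dig {g L n : ℕ} (hg : 0 < g) (hn : n < g ^ L) :
    lin (vM g L) (dig g L n) = ![(n : ℤ), (mirror g L n : ℤ)] := by
  funext l
  fin_cases l
  · show ∑ i, dig g L n i * vM g L i 0 = (n : ℤ)
    rw [← sum_dig hg hn]
    refine sum_congr rfl fun i _ => ?_
    simp [vM]
  · show ∑ i, dig g L n i * vM g L i 1 = (mirror g L n : ℤ)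
    unfold mirror
    rw [← Fin.sum_univ_eq_sum_range (fun i => n / g ^ i % g * g ^ (L - 1 - i)) L]
    push_cast
    refine sum_congr rfl fun i _ => ?_
    simp [dig, vM]

theorem dig_mem {g L n : ℕ} (hg : 2 ≤ g) (h1 : g ^ (L - 1) ≤ n) (h2 : n < g ^ L) :
    dig g L n ∈ Fintype.piFinset (Dm g L) := by
  rw [Fintype.mem_piFinset]
  intro i
  have h3 : n / g ^ (i : ℕ) % g < g := Nat.mod_lt _ (by omega)
  unfold dig Dm
  split_ifs with hi
  · rw [mem_Icc]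
    have hiL : (i : ℕ) = L - 1 := by omega
    rw [hiL]
    rw [hiL] at h3
    have h4 : n / g ^ (L - 1) < g := by
      rw [Nat.div_lt_iff_lt_mul (by positivity)]
      have : g * g ^ (L - 1) = g ^ L := by
        rw [← pow_succ']
        congr 1
        omega
      rw [this]
      exact h2
    have h5 : 1 ≤ n / g ^ (L - 1) := (Nat.one_le_div_iff (by positivity)).2 h1
    rw [Nat.mod_eq_of_lt h4] at h3 ⊢
    omega
  · rw [mem_Icc]
    omega

theorem mirror_pos {g L n : ℕ} (hg : 2 ≤ g) (hL : 0 < L) (h1 : g ^ (L - 1) ≤ n) (h2 : n < g ^ L) :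
    0 < mirror g L n := by
  unfold mirror
  have h3 : 0 < n / g ^ (L - 1) % g * g ^ (L - 1 - (L - 1)) := by
    have hm := dig_mem hg h1 h2
    rw [Fintype.mem_piFinset] at hm
    have h4 := hm ⟨L - 1, by omega⟩
    unfold dig Dm at h4
    simp only at h4
    rw [if_pos (by omega), mem_Icc] at h4
    have h5 : 0 < n / g ^ (L - 1) % g := by omega
    positivity
  exact lt_of_lt_of_le h3 (single_le_sum (f := fun i => n / g ^ i % g * g ^ (L - 1 - i))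
    (fun _ _ => Nat.zero_le _) (mem_range.2 (by omega)))

theorem card_Dm {g : ℕ} (hg : 2 ≤ g) (L : ℕ) : (((Fintype.piFinset (Dm g L)).card : ℕ) : ℝ) ≤ (g : ℝ) ^ L := by
  have h1 : (Fintype.piFinset (Dm g L)).card ≤ g ^ L := by
    rw [Fintype.card_piFinset]
    calc ∏ i, (Dm g L i).card ≤ ∏ _i : Fin L, g := by
          apply prod_le_prod' fun i _ => ?_
          unfold Dm
          split_ifs <;> rw [Int.card_Icc] <;> omega
      _ = g ^ L := by rw [prod_const, card_univ, Fintype.card_fin]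
  exact_mod_cast h1

/-- the height of digital maps -/
theorem height {ι : Type} [Fintype ι] [DecidableEq ι] {k : ℕ} (D : ι → Finset ℤ) (v : ι → Fin k → ℤ) {G Λ K : ℕ}
    (hΛ : 1 ≤ Λ) (hι : Fintype.card ι ≤ 2 * Λ) (hD : ∀ i, ∀ d ∈ D i, |d| ≤ G)
    (hv : ∀ i l, |v i l| ≤ (G : ℤ) ^ Λ) (hK : 2 * G + 1 ≤ K) :
    ∀ ω ∈ Fintype.piFinset D, ∀ l, ((lin v ω l : ℤ) : ℝ) ≤ Real.exp (K * Λ) := by
  intro ω hω l
  rw [Fintype.mem_piFinset] at hω
  have h1 : lin v ω l ≤ (Fintype.card ι : ℤ) * (G * (G : ℤ) ^ Λ) := by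
    unfold lin
    calc ∑ i, ω i * v i l ≤ ∑ _i : ι, ((G : ℤ) * (G : ℤ) ^ Λ) := by
          apply sum_le_sum
          intro i _
          calc ω i * v i l ≤ |ω i * v i l| := le_abs_self _
            _ = |ω i| * |v i l| := abs_mul _ _
            _ ≤ (G : ℤ) * (G : ℤ) ^ Λ := mul_le_mul (hD i _ (hω i)) (hv i l) (abs_nonneg _)
                (Int.natCast_nonneg _)
      _ = _ := by rw [sum_const, nsmul_eq_mul, card_univ]
  have h2 : ((lin v ω l : ℤ) : ℝ) ≤ (Fintype.card ι : ℝ) * (G * (G : ℝ) ^ Λ) := by exact_mod_cast h1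
  have hΛR : (1 : ℝ) ≤ Λ := by exact_mod_cast hΛ
  have h3 : (Fintype.card ι : ℝ) ≤ Real.exp Λ := by
    have e1 : (Fintype.card ι : ℝ) ≤ 2 * Λ := by exact_mod_cast hι
    have e2 := Real.quadratic_le_exp_of_nonneg (show (0 : ℝ) ≤ Λ by linarith)
    nlinarith [sq_nonneg ((Λ : ℝ) - 1)]
  have h4 : (G : ℝ) ≤ Real.exp G := by
    have := Real.add_one_le_exp (G : ℝ)
    linarith
  have hG0 : (0 : ℝ) ≤ G := Nat.cast_nonneg _
  calc ((lin v ω l : ℤ) : ℝ) ≤ (Fintype.card ι : ℝ) * (G * (G : ℝ) ^ Λ) := h2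
    _ ≤ Real.exp Λ * (Real.exp G * (Real.exp G) ^ Λ) := by gcongr
    _ = Real.exp (Λ + (G + Λ * G)) := by rw [← Real.exp_nat_mul, ← Real.exp_add, ← Real.exp_add]
    _ ≤ Real.exp (K * Λ) := by
        apply Real.exp_le_exp.2
        have e1 : ((2 * G + 1 : ℕ) : ℝ) ≤ K := by exact_mod_cast hK
        push_cast at e1
        have e2 : (2 * (G : ℝ) + 1) * Λ ≤ K * Λ := mul_le_mul_of_nonneg_right e1 (by linarith)
        nlinarith

theorem height_mirror {g L K : ℕ} (hL : 1 ≤ L) (hK : 2 * g + 1 ≤ K) (hg : 2 ≤ g) :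
    ∀ ω ∈ Fintype.piFinset (Dm g L), ∀ l, ((lin (vM g L) ω l : ℤ) : ℝ) ≤ Real.exp (K * L) := by
  apply height (Dm g L) (vM g L) (G := g) hL (by rw [Fintype.card_fin]; omega) _ _ hK
  · intro i d hd
    have : 0 ≤ d ∧ d ≤ (g : ℤ) - 1 := by
      unfold Dm at hd
      split_ifs at hd <;> rw [mem_Icc] at hd <;> omega
    rw [abs_of_nonneg this.1]
    omega
  · intro i l
    have hg1 : (1 : ℤ) ≤ g := by omega
    have e1 : (g : ℤ) ^ (i : ℕ) ≤ (g : ℤ) ^ L := pow_le_pow_right₀ hg1 (by omega)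
    have e2 : (g : ℤ) ^ (L - 1 - (i : ℕ)) ≤ (g : ℤ) ^ L := pow_le_pow_right₀ hg1 (by omega)
    fin_cases l
    · show |(g : ℤ) ^ (i : ℕ)| ≤ _
      rw [abs_of_nonneg (by positivity)]; exact e1
    · show |(g : ℤ) ^ (L - 1 - (i : ℕ))| ≤ _
      rw [abs_of_nonneg (by positivity)]; exact e2

theorem dig_injOn {g L : ℕ} (hg : 0 < g) {n n' : ℕ} (hn : n < g ^ L) (hn' : n' < g ^ L)
    (h : dig g L n = dig g L n') : n = n' := by
  have e1 := sum_dig hg hn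
  have e2 := sum_dig hg hn'
  rw [h, e2] at e1
  exact_mod_cast e1.symm

open Classical in
/-- transfer from numbers to digit vectors -/
theorem mirror_card {g L : ℕ} (hg : 2 ≤ g) (hL : 0 < L) (R : ℕ → ℕ → Prop) :
    {n : ℕ | g ^ (L - 1) ≤ n ∧ n < g ^ L ∧ Nat.Coprime n (mirror g L n) ∧ R n (mirror g L n)}.ncard ≤
      ((Fintype.piFinset (Dm g L)).filter (fun ω => ∃ A B : ℕ, 0 < A ∧ 0 < B ∧ lin (vM g L) ω 0 = (A : ℤ) ∧
        lin (vM g L) ω 1 = (B : ℤ) ∧ Nat.Coprime A B ∧ R A B)).card := by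
  have hg0 : 0 < g := by omega
  rw [← Set.ncard_coe_finset]
  apply Set.ncard_le_ncard_of_injOn (dig g L) _ _ (Finset.finite_toSet _)
  · rintro n ⟨h1, h2, h3, h4⟩
    rw [mem_coe, mem_filter]
    refine ⟨dig_mem hg h1 h2, n, mirror g L n, lt_of_lt_of_le (by positivity) h1, mirror_pos hg hL h1 h2,
      ?_, ?_, h3, h4⟩
    · rw [lin_dig hg0 h2]; rfl
    · rw [lin_dig hg0 h2]; rfl
  · rintro n ⟨_, h2, _⟩ n' ⟨_, h2', _⟩ hnn
    exact dig_injOn hg0 h2 h2' hnn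

theorem mirror_few (g : ℕ) (hg : 2 ≤ g) : ∃ c : ℝ, 0 < c ∧ ∀ K : ℕ, ∃ L₀ : ℕ, ∀ L : ℕ, L₀ ≤ L →
    (({n : ℕ | g ^ (L - 1) ≤ n ∧ n < g ^ L ∧ Nat.Coprime n (mirror g L n) ∧
      BadPair K L n (mirror g L n)}.ncard : ℕ) : ℝ) ≤ Real.exp (-c * √L) * (g : ℝ) ^ L := by
  classical
  obtain ⟨δ, hδ, h⟩ := digital
  have hg0 : 0 < g := by omega
  refine ⟨δ * c0 2 g (kapM g), mul_pos hδ (c0_pos 2 hg0 (kapM_pos g)), fun K => ?_⟩
  obtain ⟨L₀, hL₀⟩ := eventually_atTop.1 (h 3 g hg0 (kapM g) (kapM_pos g) (WdM g) (WdM_pos hg)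
    (max K (2 * g + 1)))
  refine ⟨max L₀ 1, fun L hL => ?_⟩
  have hL1 : 1 ≤ L := (le_max_right _ _).trans hL
  have h1 := hL₀ L ((le_max_left _ _).trans hL) L le_rfl (Nat.le_self_pow (by omega) L) (Dm g L) (vM g L)
    (manyGood_mirror hg L) (height_mirror hL1 (le_max_right _ _) hg)
  refine le_trans ?_ (h1.trans (mul_le_mul_of_nonneg_left (card_Dm hg L) (Real.exp_pos _).le))
  apply Nat.cast_le.2
  refine le_trans ?_ (mirror_card hg (by omega) (fun A B => BadPair (max K (2 * g + 1)) L A B))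
  apply Set.ncard_le_ncard
  · rintro n ⟨h1, h2, h3, h4⟩
    exact ⟨h1, h2, h3, h4.mono hL1 (le_max_left _ _)⟩
  · exact (Set.finite_lt_nat (g ^ L)).subset fun n hn => hn.2.1

theorem mirror_all (g : ℕ) (hg : 2 ≤ g) {ε : ℝ} (hε : 0 < ε) : ∃ L₀ : ℕ, ∀ L : ℕ, L₀ ≤ L →
    (({n : ℕ | g ^ (L - 1) ≤ n ∧ n < g ^ L ∧ Nat.Coprime n (mirror g L n) ∧
      ∃ x y z C : ℕ, Sol n (mirror g L n) x y z C}.ncard : ℕ) : ℝ) ≤ ε * (g : ℝ) ^ L := by
  classical
  have hg0 : 0 < g := by omega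
  obtain ⟨L₀, hL₀⟩ := eventually_atTop.1 (digital_all 3 g hg0 (kapM g) (kapM_pos g) (WdM g) (WdM_pos hg)
    (2 * g + 1) (by omega) hε)
  refine ⟨max L₀ 1, fun L hL => ?_⟩
  have hL1 : 1 ≤ L := (le_max_right _ _).trans hL
  have h1 := hL₀ L ((le_max_left _ _).trans hL) L le_rfl (Nat.le_self_pow (by omega) L) (Dm g L) (vM g L)
    (manyGood_mirror hg L) (height_mirror hL1 le_rfl hg)
  refine le_trans ?_ (h1.trans (mul_le_mul_of_nonneg_left (card_Dm hg L) hε.le))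
  apply Nat.cast_le.2
  exact mirror_card hg (by omega) (fun A B => ∃ x y z C : ℕ, Sol A B x y z C)

/-! ### restricted digits -/

/-- the numbers below `g ^ L` all of whose `L` digits in base `g` are in `D` -/
def Dig (g : ℕ) (D : Finset ℕ) (L : ℕ) : Set ℕ := {n | n < g ^ L ∧ ∀ i < L, n / g ^ i % g ∈ D}

/-- the digits as integers -/
def DZ (D : Finset ℕ) : Finset ℤ := D.map Nat.castEmbedding

theorem DZ_card (D : Finset ℕ) : (DZ D).card = D.card := card_map _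

/-- the digit sets of a pair -/
def DD (D E : Finset ℕ) (L M : ℕ) : Fin L ⊕ Fin M → Finset ℤ := Sum.elim (fun _ => DZ D) (fun _ => DZ E)

/-- the weights of a pair -/
def vv (g h L M : ℕ) : Fin L ⊕ Fin M → Fin 2 → ℤ :=
  Sum.elim (fun i => ![(g : ℤ) ^ (i : ℕ), 0]) (fun j => ![0, (h : ℤ) ^ (j : ℕ)])

theorem manyGood_pair {g h : ℕ} (hg : 2 ≤ g) (hh : 2 ≤ h) {D E : Finset ℕ} (hD : 2 ≤ D.card) (hE : 2 ≤ E.card) :
    ∃ (Wd A0 B : ℕ) (κ : ℝ), 0 < Wd ∧ 0 < B ∧ 0 < κ ∧ ∀ L M : ℕ,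
      ManyGood Wd A0 B κ (min L M) (DD D E L M) (vv g h L M) := by
  obtain ⟨d1, hd1, d2, hd2, hd⟩ := one_lt_card.1 (by omega : 1 < D.card)
  obtain ⟨e1, he1, e2, he2, he⟩ := one_lt_card.1 (by omega : 1 < E.card)
  have hdZ : (d1 : ℤ) - d2 ≠ 0 := sub_ne_zero.2 (by exact_mod_cast hd)
  have heZ : (e1 : ℤ) - e2 ≠ 0 := sub_ne_zero.2 (by exact_mod_cast he)
  have hg2 : ∀ l : Fin 1, 2 ≤ ((fun _ => (g : ℤ)) l : ℤ).natAbs := fun _ => by simpa using hg
  have hh2 : ∀ l : Fin 1, 2 ≤ ((fun _ => (h : ℤ)) l : ℤ).natAbs := fun _ => by simpa using hh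
  have m1 : ∀ {S : Finset ℕ} {x : ℕ}, x ∈ S → (x : ℤ) ∈ DZ S := by
    intro S x hx
    exact mem_map.2 ⟨x, hx, rfl⟩
  refine ⟨WdP (fun _ : Fin 1 => (g : ℤ)) (d1 - d2) * WdP (fun _ : Fin 1 => (h : ℤ)) (e1 - e2), max 1 1,
    max (DZ D).card (DZ E).card, min (kap (fun _ : Fin 1 => (g : ℤ))) (kap (fun _ : Fin 1 => (h : ℤ))),
    ?_, ?_, ?_, fun L M => ?_⟩
  · exact Nat.mul_pos (WdP_pos (Function.injective_of_subsingleton _) hg2 hdZ)
      (WdP_pos (Function.injective_of_subsingleton _) hh2 heZ)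
  · rw [DZ_card, DZ_card]; omega
  · exact lt_min (kap_pos _) (kap_pos _)
  · have hd' : (d1 : ℤ) ≠ d2 := by exact_mod_cast hd
    have he' : (e1 : ℤ) ≠ e2 := by exact_mod_cast he
    have p1 := manyGood_poly (fun _ : Fin 1 => (g : ℤ)) hg2 L (DZ D) (m1 hd1) (m1 hd2) hd'
    have p2 := manyGood_poly (fun _ : Fin 1 => (h : ℤ)) hh2 M (DZ E) (m1 he1) (m1 he2) he'
    have p3 := manyGood_sum p1 p2
    exact p3

theorem card_DD (D E : Finset ℕ) (L M : ℕ) :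
    (((Fintype.piFinset (DD D E L M)).card : ℕ) : ℝ) = (D.card : ℝ) ^ L * (E.card : ℝ) ^ M := by
  rw [Fintype.card_piFinset, Fintype.prod_sum_type]
  simp only [DD, Sum.elim_inl, Sum.elim_inr, DZ_card, prod_const, card_univ, Fintype.card_fin]
  push_cast
  rfl

theorem height_pair {g h : ℕ} (hg : 2 ≤ g) (hh : 2 ≤ h) {D E : Finset ℕ} (hD : D ⊆ range g)
    (hE : E ⊆ range h) {L M K : ℕ} (hL : 1 ≤ max L M) (hK : 2 * (g + h) + 1 ≤ K) :
    ∀ ω ∈ Fintype.piFinset (DD D E L M), ∀ l,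
      ((lin (vv g h L M) ω l : ℤ) : ℝ) ≤ Real.exp (K * (max L M : ℕ)) := by
  apply height (DD D E L M) (vv g h L M) (G := g + h) hL _ _ _ hK
  · rw [Fintype.card_sum, Fintype.card_fin, Fintype.card_fin]
    omega
  · intro i d hd
    rcases i with i | i
    · obtain ⟨x, hx, rfl⟩ := mem_map.1 hd
      have := mem_range.1 (hD hx)
      show |(x : ℤ)| ≤ _
      rw [abs_of_nonneg (by positivity)]
      push_cast
      omega
    · obtain ⟨x, hx, rfl⟩ := mem_map.1 hd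
      have := mem_range.1 (hE hx)
      show |(x : ℤ)| ≤ _
      rw [abs_of_nonneg (by positivity)]
      push_cast
      omega
  · intro i l
    have key : ∀ (t : ℕ) (e : ℕ), t ≤ g + h → e ≤ max L M → |(t : ℤ) ^ e| ≤ ((g + h : ℕ) : ℤ) ^ (max L M) := by
      intro t e ht he
      rw [abs_of_nonneg (by positivity)]
      have : t ^ e ≤ (g + h) ^ (max L M) :=
        (Nat.pow_le_pow_left ht e).trans (Nat.pow_le_pow_right (by omega) he)
      exact_mod_cast this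
    have k0 : |(0 : ℤ)| ≤ ((g + h : ℕ) : ℤ) ^ (max L M) := by rw [abs_zero]; positivity
    rcases i with i | i
    · fin_cases l
      · exact key g i (by omega) (by have := i.2; omega)
      · exact k0
    · fin_cases l
      · exact k0
      · exact key h i (by omega) (by have := i.2; omega)

open Classical in
theorem pair_card {g h : ℕ} (hg : 0 < g) (hh : 0 < h) (D E : Finset ℕ) (L M : ℕ) (R : ℕ → ℕ → Prop) :
    {p : ℕ × ℕ | p.1 ∈ Dig g D L ∧ p.2 ∈ Dig h E M ∧ 0 < p.1 ∧ 0 < p.2 ∧ Nat.Coprime p.1 p.2 ∧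
      R p.1 p.2}.ncard ≤
      ((Fintype.piFinset (DD D E L M)).filter (fun ω => ∃ A B : ℕ, 0 < A ∧ 0 < B ∧
        lin (vv g h L M) ω 0 = (A : ℤ) ∧ lin (vv g h L M) ω 1 = (B : ℤ) ∧ Nat.Coprime A B ∧ R A B)).card := by
  rw [← Set.ncard_coe_finset]
  apply Set.ncard_le_ncard_of_injOn
    (fun p : ℕ × ℕ => (Sum.elim (dig g L p.1) (dig h M p.2) : Fin L ⊕ Fin M → ℤ)) _ _ (Finset.finite_toSet _)
  · rintro ⟨A, B⟩ ⟨hA, hB, hA0, hB0, hco, hR⟩
    simp only at hA hB hA0 hB0 hco hR ⊢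
    rw [mem_coe, mem_filter]
    refine ⟨?_, A, B, hA0, hB0, ?_, ?_, hco, hR⟩
    · rw [Fintype.mem_piFinset]
      rintro (i | i)
      · exact mem_map.2 ⟨_, hA.2 i i.2, rfl⟩
      · exact mem_map.2 ⟨_, hB.2 i i.2, rfl⟩
    · show ∑ i, Sum.elim (dig g L A) (dig h M B) i * vv g h L M i 0 = _
      rw [Fintype.sum_sum_type]
      simp only [Sum.elim_inl, Sum.elim_inr, vv, Matrix.cons_val_zero, mul_zero, sum_const_zero, add_zero]
      exact sum_dig hg hA.1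
    · show ∑ i, Sum.elim (dig g L A) (dig h M B) i * vv g h L M i 1 = _
      rw [Fintype.sum_sum_type]
      simp only [Sum.elim_inl, Sum.elim_inr, vv, Matrix.cons_val_one, Matrix.cons_val_zero,
        mul_zero, sum_const_zero, zero_add]
      exact sum_dig hh hB.1
  · rintro ⟨A, B⟩ ⟨hA, hB, -⟩ ⟨A', B'⟩ ⟨hA', hB', -⟩ heq
    simp only at hA hB hA' hB' heq
    have e1 : dig g L A = dig g L A' := by
      funext i
      exact congrFun heq (Sum.inl i)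
    have e2 : dig h M B = dig h M B' := by
      funext i
      exact congrFun heq (Sum.inr i)
    rw [dig_injOn hg hA.1 hA'.1 e1, dig_injOn hh hB.1 hB'.1 e2]

theorem digits_few {g h : ℕ} (hg : 2 ≤ g) (hh : 2 ≤ h) {D E : Finset ℕ} (hD : D ⊆ range g)
    (hE : E ⊆ range h) (hD2 : 2 ≤ D.card) (hE2 : 2 ≤ E.card) : ∃ c : ℝ, 0 < c ∧ ∀ K : ℕ, ∃ L₀ : ℕ,
    ∀ L M : ℕ, L₀ ≤ L → L₀ ≤ M → L ≤ M ^ K → M ≤ L ^ K →
    (({p : ℕ × ℕ | p.1 ∈ Dig g D L ∧ p.2 ∈ Dig h E M ∧ 0 < p.1 ∧ 0 < p.2 ∧ Nat.Coprime p.1 p.2 ∧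
      BadPair K (max L M) p.1 p.2}.ncard : ℕ) : ℝ) ≤
      Real.exp (-c * √((min L M : ℕ) : ℝ)) * ((D.card : ℝ) ^ L * (E.card : ℝ) ^ M) := by
  classical
  obtain ⟨δ, hδ, hdig⟩ := digital
  obtain ⟨Wd, A0, B, κ, hWd, hB, hκ, hgood⟩ := manyGood_pair hg hh hD2 hE2
  refine ⟨δ * c0 2 B κ, mul_pos hδ (c0_pos 2 hB hκ), fun K => ?_⟩
  obtain ⟨L₀, hL₀⟩ := eventually_atTop.1 (hdig A0 B hB κ hκ Wd hWd (max K (2 * (g + h) + 1)))
  refine ⟨max L₀ 2, fun L M hL hM hLM hML => ?_⟩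
  simp only [max_le_iff] at hL hM
  have hK1 : K ≠ 0 := by
    rintro rfl
    rw [pow_zero] at hLM
    omega
  have hmin : L₀ ≤ min L M := le_min hL.1 hM.1
  have hmin2 : 2 ≤ min L M := le_min hL.2 hM.2
  have hmax : 1 ≤ max L M := by omega
  have hΛ : max L M ≤ (min L M) ^ (max K (2 * (g + h) + 1)) := by
    have h1 : max L M ≤ (min L M) ^ K := by
      rcases le_total L M with h | h
      · rw [max_eq_right h, min_eq_left h]; exact hML
      · rw [max_eq_left h, min_eq_right h]; exact hLM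
    exact h1.trans (Nat.pow_le_pow_right (by omega) (le_max_left _ _))
  have h1 := hL₀ (min L M) hmin (max L M) (min_le_max) hΛ (DD D E L M) (vv g h L M) (hgood L M)
    (height_pair hg hh hD hE hmax (le_max_right _ _))
  rw [card_DD] at h1
  refine le_trans ?_ h1
  apply Nat.cast_le.2
  refine le_trans ?_ (pair_card (by omega) (by omega) D E L M
    (fun A B => BadPair (max K (2 * (g + h) + 1)) (max L M) A B))
  apply Set.ncard_le_ncard
  · rintro p ⟨h1, h2, h3, h4, h5, h6⟩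
    exact ⟨h1, h2, h3, h4, h5, h6.mono hmax (le_max_left _ _)⟩
  · apply Set.Finite.subset ((Set.finite_lt_nat (g ^ L)).prod (Set.finite_lt_nat (h ^ M)))
    rintro p ⟨h1, h2, -⟩
    exact ⟨h1.1, h2.1⟩

theorem digits_all {g h : ℕ} (hg : 2 ≤ g) (hh : 2 ≤ h) {D E : Finset ℕ} (hD : D ⊆ range g)
    (hE : E ⊆ range h) (hD2 : 2 ≤ D.card) (hE2 : 2 ≤ E.card) (K : ℕ) {ε : ℝ} (hε : 0 < ε) : ∃ L₀ : ℕ,
    ∀ L M : ℕ, L₀ ≤ L → L₀ ≤ M → L ≤ M ^ K → M ≤ L ^ K →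
    (({p : ℕ × ℕ | p.1 ∈ Dig g D L ∧ p.2 ∈ Dig h E M ∧ 0 < p.1 ∧ 0 < p.2 ∧ Nat.Coprime p.1 p.2 ∧
      ∃ x y z C : ℕ, Sol p.1 p.2 x y z C}.ncard : ℕ) : ℝ) ≤
      ε * ((D.card : ℝ) ^ L * (E.card : ℝ) ^ M) := by
  classical
  obtain ⟨Wd, A0, B, κ, hWd, hB, hκ, hgood⟩ := manyGood_pair hg hh hD2 hE2
  obtain ⟨L₀, hL₀⟩ := eventually_atTop.1 (digital_all A0 B hB κ hκ Wd hWd (max K (2 * (g + h) + 1))
    (by omega) hε)
  refine ⟨max L₀ 2, fun L M hL hM hLM hML => ?_⟩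
  simp only [max_le_iff] at hL hM
  have hmin : L₀ ≤ min L M := le_min hL.1 hM.1
  have hmin2 : 2 ≤ min L M := le_min hL.2 hM.2
  have hmax : 1 ≤ max L M := by omega
  have hΛ : max L M ≤ (min L M) ^ (max K (2 * (g + h) + 1)) := by
    have h1 : max L M ≤ (min L M) ^ K := by
      rcases le_total L M with h | h
      · rw [max_eq_right h, min_eq_left h]; exact hML
      · rw [max_eq_left h, min_eq_right h]; exact hLM
    exact h1.trans (Nat.pow_le_pow_right (by omega) (le_max_left _ _))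
  have h1 := hL₀ (min L M) hmin (max L M) (min_le_max) hΛ (DD D E L M) (vv g h L M) (hgood L M)
    (height_pair hg hh hD hE hmax (le_max_right _ _))
  rw [card_DD] at h1
  refine le_trans ?_ h1
  apply Nat.cast_le.2
  exact pair_card (by omega) (by omega) D E L M (fun A B => ∃ x y z C : ℕ, Sol A B x y z C)

/-! ### values of polynomials -/

/-- the value at `y` of the polynomial with the coefficients `ω` -/
def val {L : ℕ} (ω : Fin L → ℤ) (y : ℤ) : ℤ := ∑ i, ω i * y ^ (i : ℕ)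

theorem poly_setup {a b : ℤ} (ha : 2 ≤ a.natAbs) (hb : 2 ≤ b.natAbs) (hab : a ≠ b) {D : Finset ℤ}
    (hD : 2 ≤ D.card) : ∃ (Wd A0 B : ℕ) (κ : ℝ) (G : ℕ), 0 < Wd ∧ 0 < B ∧ 0 < κ ∧ ∀ L : ℕ,
      ManyGood Wd A0 B κ L (fun _ : Fin L => D) (vP ![a, b] L) ∧ (1 ≤ L → ∀ K : ℕ, G ≤ K →
      ∀ ω ∈ Fintype.piFinset (fun _ : Fin L => D), ∀ l, ((lin (vP ![a, b] L) ω l : ℤ) : ℝ) ≤ Real.exp (K * L)) := by
  obtain ⟨d1, hd1, d2, hd2, hd⟩ := one_lt_card.1 (by omega : 1 < D.card)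
  have hinj : Function.Injective (![a, b] : Fin 2 → ℤ) := by
    intro i j hij
    fin_cases i <;> fin_cases j <;> simp at hij ⊢
    · exact hab hij
    · exact hab hij.symm
  have h2 : ∀ l : Fin 2, 2 ≤ ((![a, b] : Fin 2 → ℤ) l).natAbs := by
    intro l
    fin_cases l
    · exact ha
    · exact hb
  set G : ℕ := a.natAbs + b.natAbs + ∑ d ∈ D, d.natAbs with hG
  refine ⟨WdP ![a, b] (d1 - d2), 2, D.card, kap ![a, b], 2 * G + 1, WdP_pos hinj h2 (sub_ne_zero.2 hd),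
    by omega, kap_pos _, fun L => ⟨manyGood_poly ![a, b] h2 L D hd1 hd2 hd, fun hL K hK => ?_⟩⟩
  apply height (fun _ : Fin L => D) (vP ![a, b] L) (G := G) hL (by rw [Fintype.card_fin]; omega) _ _ hK
  · intro i d hd
    have h3 : d.natAbs ≤ ∑ d ∈ D, d.natAbs := single_le_sum (f := fun d : ℤ => d.natAbs)
      (fun _ _ => Nat.zero_le _) hd
    rw [Int.abs_eq_natAbs]
    exact_mod_cast (by omega : d.natAbs ≤ G)
  · intro i l
    have key : ∀ t : ℤ, t.natAbs ≤ G → |t ^ (i : ℕ)| ≤ (G : ℤ) ^ L := by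
      intro t ht
      rw [abs_pow, Int.abs_eq_natAbs]
      have hG1 : 1 ≤ G := by omega
      have : t.natAbs ^ (i : ℕ) ≤ G ^ L :=
        (Nat.pow_le_pow_left ht _).trans (Nat.pow_le_pow_right hG1 (by have := i.2; omega))
      exact_mod_cast this
    fin_cases l
    · exact key a (by omega)
    · exact key b (by omega)

theorem lin_vP {L : ℕ} (a b : ℤ) (ω : Fin L → ℤ) : lin (vP ![a, b] L) ω 0 = val ω a ∧
    lin (vP ![a, b] L) ω 1 = val ω b := ⟨rfl, rfl⟩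

open Classical in
theorem poly_few {a b : ℤ} (ha : 2 ≤ a.natAbs) (hb : 2 ≤ b.natAbs) (hab : a ≠ b) {D : Finset ℤ}
    (hD : 2 ≤ D.card) : ∃ c : ℝ, 0 < c ∧ ∀ K : ℕ, ∃ L₀ : ℕ, ∀ L : ℕ, L₀ ≤ L →
    (((Fintype.piFinset (fun _ : Fin L => D)).filter (fun ω => ∃ A B : ℕ, 0 < A ∧ 0 < B ∧ val ω a = (A : ℤ) ∧
      val ω b = (B : ℤ) ∧ Nat.Coprime A B ∧ BadPair K L A B)).card : ℝ) ≤
      Real.exp (-c * √L) * (D.card : ℝ) ^ L := by
  obtain ⟨δ, hδ, hdig⟩ := digital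
  obtain ⟨Wd, A0, B, κ, G, hWd, hB, hκ, hgood⟩ := poly_setup ha hb hab hD
  refine ⟨δ * c0 2 B κ, mul_pos hδ (c0_pos 2 hB hκ), fun K => ?_⟩
  obtain ⟨L₀, hL₀⟩ := eventually_atTop.1 (hdig A0 B hB κ hκ Wd hWd (max K (G + 1)))
  refine ⟨max L₀ 1, fun L hL => ?_⟩
  have hL1 : 1 ≤ L := (le_max_right _ _).trans hL
  have h1 := hL₀ L ((le_max_left _ _).trans hL) L le_rfl (Nat.le_self_pow (by omega) L) (fun _ => D)
    (vP ![a, b] L) (hgood L).1 ((hgood L).2 hL1 _ (by omega))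
  have hcard : (((Fintype.piFinset (fun _ : Fin L => D)).card : ℕ) : ℝ) = (D.card : ℝ) ^ L := by
    rw [Fintype.card_piFinset, prod_const, card_univ, Fintype.card_fin]
    push_cast
    rfl
  rw [hcard] at h1
  refine le_trans ?_ h1
  apply Nat.cast_le.2
  apply card_le_card
  intro ω hω
  rw [mem_filter] at hω ⊢
  obtain ⟨hωD, A, B₁, h2, h3, h4, h5, h6, h7⟩ := hω
  exact ⟨hωD, A, B₁, h2, h3, h4, h5, h6, h7.mono hL1 (le_max_left _ _)⟩

open Classical in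
theorem poly_all {a b : ℤ} (ha : 2 ≤ a.natAbs) (hb : 2 ≤ b.natAbs) (hab : a ≠ b) {D : Finset ℤ}
    (hD : 2 ≤ D.card) {ε : ℝ} (hε : 0 < ε) : ∃ L₀ : ℕ, ∀ L : ℕ, L₀ ≤ L →
    (((Fintype.piFinset (fun _ : Fin L => D)).filter (fun ω => ∃ A B : ℕ, 0 < A ∧ 0 < B ∧ val ω a = (A : ℤ) ∧
      val ω b = (B : ℤ) ∧ Nat.Coprime A B ∧ ∃ x y z C : ℕ, Sol A B x y z C)).card : ℝ) ≤
      ε * (D.card : ℝ) ^ L := by
  obtain ⟨Wd, A0, B, κ, G, hWd, hB, hκ, hgood⟩ := poly_setup ha hb hab hD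
  obtain ⟨L₀, hL₀⟩ := eventually_atTop.1 (digital_all A0 B hB κ hκ Wd hWd (G + 1) (by omega) hε)
  refine ⟨max L₀ 1, fun L hL => ?_⟩
  have hL1 : 1 ≤ L := (le_max_right _ _).trans hL
  have h1 := hL₀ L ((le_max_left _ _).trans hL) L le_rfl (Nat.le_self_pow (by omega) L) (fun _ => D)
    (vP ![a, b] L) (hgood L).1 ((hgood L).2 hL1 _ (by omega))
  have hcard : (((Fintype.piFinset (fun _ : Fin L => D)).card : ℕ) : ℝ) = (D.card : ℝ) ^ L := by
    rw [Fintype.card_piFinset, prod_const, card_univ, Fintype.card_fin]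
    push_cast
    rfl
  rw [hcard] at h1
  exact h1

end Pool.Agent.Y353.FP
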