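import Mathlib
import Pool.Agent.Y353.FP.Inst

/-!
Project FP (helper353): values of a random binary form at two rational points.
-/

set_option autoImplicit false

namespace Pool.Agent.Y353.FP

open Finset Filter Topology
open Pool.Agent.TH194.BL Pool.Agent.Y353.FD Pool.Agent.Y353.PS

theorem vma_mul {m : ℕ} [NeZero m] (a : ℤ) (x : ZMod m) (h : 2 * (a.natAbs * nn x) < m) :
    ((a : ZMod m) * x).valMinAbs = a * x.valMinAbs := by
  rw [ZMod.valMinAbs_spec]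
  refine ⟨by rw [Int.cast_mul, ZMod.coe_valMinAbs], ?_⟩
  have h2 : (a * x.valMinAbs).natAbs = a.natAbs * nn x := by
    rw [Int.natAbs_mul]; rfl
  rw [Set.mem_Ioc]
  constructor <;> omega

/-- a number divisible by a large power is not small -/
theorem zero_of_pow_dvd {m K : ℕ} [NeZero m] (hK : m < 2 ^ K) {w : ℤ} (hw : 2 ≤ w.natAbs) (t : ZMod m)
    (h : w ^ K ∣ t.valMinAbs) : t = 0 := by
  by_contra h0
  have h1 : t.valMinAbs.natAbs ≠ 0 := by
    rw [Ne, Int.natAbs_eq_zero, ZMod.valMinAbs_eq_zero]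
    exact h0
  have h2 : w.natAbs ^ K ∣ t.valMinAbs.natAbs := by
    rw [← Int.natAbs_pow]
    exact Int.natAbs_dvd_natAbs.2 h
  have h3 := Nat.le_of_dvd (Nat.pos_of_ne_zero h1) h2
  have h4 : 2 ^ K ≤ w.natAbs ^ K := Nat.pow_le_pow_left hw K
  have h5 := nn_le t
  unfold nn at h5
  omega

/-- geometric progressions with rational ratio are not small on long windows -/
theorem geo_two {m : ℕ} [NeZero m] (u v : ℤ) (huv : IsCoprime u v) (h2 : 2 ≤ u.natAbs ∨ 2 ≤ v.natAbs)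
    (t : ℕ → ZMod m) (K : ℕ) (hK : m < 2 ^ K)
    (ht : ∀ i < K, (v : ZMod m) * t (i + 1) = (u : ZMod m) * t i)
    (hsm : ∀ i ≤ K, 2 * ((u.natAbs + v.natAbs) * nn (t i)) < m) : ∃ i ≤ K, t i = 0 := by
  have hu : ∀ i ≤ K, 2 * (u.natAbs * nn (t i)) < m := by
    intro i hi
    refine lt_of_le_of_lt ?_ (hsm i hi)
    gcongr
    omega
  have hv : ∀ i ≤ K, 2 * (v.natAbs * nn (t i)) < m := by
    intro i hi
    refine lt_of_le_of_lt ?_ (hsm i hi)
    gcongr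
    omega
  have hT : ∀ i < K, v * (t (i + 1)).valMinAbs = u * (t i).valMinAbs := by
    intro i hi
    rw [← vma_mul v _ (hv (i + 1) (by omega)), ← vma_mul u _ (hu i (by omega)), ht i hi]
  rcases h2 with h2 | h2
  · refine ⟨K, le_rfl, zero_of_pow_dvd hK h2 _ ?_⟩
    have key : ∀ j ≤ K, u ^ j ∣ (t j).valMinAbs := by
      intro j
      induction j with
      | zero => intro _; simp
      | succ j ih =>
        intro hj
        have h3 := ih (by omega)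
        have h4 : u ^ (j + 1) ∣ v * (t (j + 1)).valMinAbs := by
          rw [hT j (by omega), pow_succ']
          exact mul_dvd_mul_left _ h3
        exact (huv.pow_left (m := j + 1)).dvd_of_dvd_mul_left h4
    exact key K le_rfl
  · refine ⟨0, Nat.zero_le _, zero_of_pow_dvd hK h2 _ ?_⟩
    have key : ∀ j ≤ K, v ^ j ∣ (t (K - j)).valMinAbs := by
      intro j
      induction j with
      | zero => intro _; simp
      | succ j ih =>
        intro hj
        have h3 := ih (by omega)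
        have h4 : v ^ (j + 1) ∣ u * (t (K - (j + 1))).valMinAbs := by
          have h5 := hT (K - (j + 1)) (by omega)
          have h6 : K - (j + 1) + 1 = K - j := by omega
          rw [h6] at h5
          rw [← h5, pow_succ']
          exact mul_dvd_mul_left _ h3
        exact (huv.symm.pow_left (m := j + 1)).dvd_of_dvd_mul_left h4
    have := key K le_rfl
    rwa [Nat.sub_self] at this

/-- The window lemma for two rational points. -/
theorem form_window {m : ℕ} [NeZero m] (K : ℕ) (hK : m < 2 ^ K) (u₁ v₁ u₂ v₂ : ℤ) (h1 : IsCoprime u₁ v₁)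
    (h1' : 2 ≤ u₁.natAbs ∨ 2 ≤ v₁.natAbs) (h2' : u₂ ≠ 0) (hu1 : IsUnit (u₁ : ZMod m))
    (hv1 : IsUnit (v₁ : ZMod m)) (hd : IsUnit ((v₂ * u₁ - u₂ * v₁ : ℤ) : ZMod m)) (T i0 : ℕ)
    (hT : i0 + K + 1 ≤ T) (x y : ZMod m)
    (h : ∀ i, i0 ≤ i → i ≤ i0 + K + 1 → 2 * ((u₁.natAbs + v₁.natAbs) * ((u₂.natAbs + v₂.natAbs) *
      nn (x * ((u₁ : ZMod m) ^ i * (v₁ : ZMod m) ^ (T - i)) +
        y * ((u₂ : ZMod m) ^ i * (v₂ : ZMod m) ^ (T - i))))) < m) : x = 0 := by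
  set S : ℕ → ZMod m := fun i => x * ((u₁ : ZMod m) ^ i * (v₁ : ZMod m) ^ (T - i)) +
        y * ((u₂ : ZMod m) ^ i * (v₂ : ZMod m) ^ (T - i)) with hS
  set t : ℕ → ZMod m := fun i => x * ((u₁ : ZMod m) ^ (i0 + i) * (v₁ : ZMod m) ^ (T - (i0 + i) - 1)) *
    ((v₂ * u₁ - u₂ * v₁ : ℤ) : ZMod m) with ht
  have ht1 : ∀ i ≤ K, t i = (v₂ : ZMod m) * S (i0 + i + 1) + ((-u₂ : ℤ) : ZMod m) * S (i0 + i) := by
    intro i hi
    simp only [ht, hS]
    have e1 : T - (i0 + i) = T - (i0 + i) - 1 + 1 := by omega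
    have e2 : T - (i0 + i + 1) = T - (i0 + i) - 1 := by omega
    rw [e2]
    generalize T - (i0 + i) - 1 = s at *
    rw [e1]
    push_cast
    ring
  have ht2 : ∀ i < K, (v₁ : ZMod m) * t (i + 1) = (u₁ : ZMod m) * t i := by
    intro i hi
    simp only [ht]
    have e1 : T - (i0 + i) - 1 = T - (i0 + (i + 1)) - 1 + 1 := by omega
    rw [e1, ← add_assoc]
    ring
  have ht3 : ∀ i ≤ K, 2 * ((u₁.natAbs + v₁.natAbs) * nn (t i)) < m := by
    intro i hi
    set C := u₁.natAbs + v₁.natAbs with hC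
    set E := u₂.natAbs + v₂.natAbs with hE
    have hE0 : 0 < E := by
      have : 0 < u₂.natAbs := Int.natAbs_pos.2 h2'
      omega
    have b1 : 2 * (C * (E * nn (S (i0 + i)))) < m := h (i0 + i) (by omega) (by omega)
    have b2 : 2 * (C * (E * nn (S (i0 + i + 1)))) < m := h (i0 + i + 1) (by omega) (by omega)
    have b3 : nn (t i) ≤ v₂.natAbs * nn (S (i0 + i + 1)) + u₂.natAbs * nn (S (i0 + i)) := by
      rw [ht1 i hi]
      refine (nn_add_le _ _).trans ?_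
      have e1 := nn_mul_le (-u₂) (S (i0 + i))
      have e2 := nn_mul_le v₂ (S (i0 + i + 1))
      rw [Int.natAbs_neg] at e1
      omega
    have b4 : E * (2 * (C * nn (t i))) < E * m := by
      calc E * (2 * (C * nn (t i)))
          ≤ E * (2 * (C * (v₂.natAbs * nn (S (i0 + i + 1)) + u₂.natAbs * nn (S (i0 + i))))) := by gcongr
        _ = v₂.natAbs * (2 * (C * (E * nn (S (i0 + i + 1))))) +
            u₂.natAbs * (2 * (C * (E * nn (S (i0 + i))))) := by ring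
        _ < v₂.natAbs * m + u₂.natAbs * m := by
            apply add_lt_add_of_le_of_lt
            · gcongr
            · have : 0 < u₂.natAbs := Int.natAbs_pos.2 h2'
              exact Nat.mul_lt_mul_of_pos_left b1 this
        _ = E * m := by rw [hE]; ring
    exact Nat.lt_of_mul_lt_mul_left b4
  obtain ⟨i, hi, h0⟩ := geo_two u₁ v₁ h1 h1' t K hK ht2 ht3
  simp only [ht] at h0
  have h3 := (hd.mul_left_eq_zero).1 h0
  exact (((hu1.pow _).mul (hv1.pow _)).mul_left_eq_zero).1 h3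

/-- the digit map of a binary form at two points -/
def vF (u₁ v₁ u₂ v₂ : ℤ) (L : ℕ) : Fin L → Fin 2 → ℤ :=
  fun i => ![u₁ ^ (i : ℕ) * v₁ ^ (L - 1 - (i : ℕ)), u₂ ^ (i : ℕ) * v₂ ^ (L - 1 - (i : ℕ))]

/-- the excluded primes -/
def WdF (u₁ v₁ u₂ v₂ d : ℤ) : ℕ :=
  d.natAbs * (u₁.natAbs * v₁.natAbs * (u₂.natAbs * v₂.natAbs)) * (v₂ * u₁ - u₂ * v₁).natAbs

/-- the constant -/
noncomputable def kapF (u₁ v₁ u₂ v₂ : ℤ) : ℝ :=
  1 / (2 * ((u₁.natAbs + v₁.natAbs) * (u₂.natAbs + v₂.natAbs)) : ℕ)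

theorem kapF_pos {u₁ v₁ u₂ v₂ : ℤ} (h1 : u₁ ≠ 0) (h2 : u₂ ≠ 0) : 0 < kapF u₁ v₁ u₂ v₂ := by
  unfold kapF
  have e1 : 0 < u₁.natAbs := Int.natAbs_pos.2 h1
  have e2 : 0 < u₂.natAbs := Int.natAbs_pos.2 h2
  positivity

theorem WdF_pos {u₁ v₁ u₂ v₂ d : ℤ} (h1 : u₁ ≠ 0) (h2 : v₁ ≠ 0) (h3 : u₂ ≠ 0) (h4 : v₂ ≠ 0)
    (h5 : u₁ * v₂ ≠ u₂ * v₁) (hd : d ≠ 0) : 0 < WdF u₁ v₁ u₂ v₂ d := by
  unfold WdF
  have e1 : 0 < u₁.natAbs := Int.natAbs_pos.2 h1
  have e2 : 0 < v₁.natAbs := Int.natAbs_pos.2 h2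
  have e3 : 0 < u₂.natAbs := Int.natAbs_pos.2 h3
  have e4 : 0 < v₂.natAbs := Int.natAbs_pos.2 h4
  have e5 : 0 < d.natAbs := Int.natAbs_pos.2 hd
  have e6 : 0 < (v₂ * u₁ - u₂ * v₁).natAbs := by
    apply Int.natAbs_pos.2
    rw [sub_ne_zero, mul_comm]
    exact h5
  positivity

theorem two_le_of_ne {u v : ℤ} (hu : u ≠ 0) (hv : v ≠ 0) (h : u.natAbs ≠ v.natAbs) :
    2 ≤ u.natAbs ∨ 2 ≤ v.natAbs := by
  have e1 : 0 < u.natAbs := Int.natAbs_pos.2 hu
  have e2 : 0 < v.natAbs := Int.natAbs_pos.2 hv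
  omega

theorem manyGood_form {u₁ v₁ u₂ v₂ : ℤ} (c1 : IsCoprime u₁ v₁) (c2 : IsCoprime u₂ v₂) (h1 : u₁ ≠ 0)
    (h2 : v₁ ≠ 0) (h3 : u₂ ≠ 0) (h4 : v₂ ≠ 0) (n1 : u₁.natAbs ≠ v₁.natAbs) (n2 : u₂.natAbs ≠ v₂.natAbs)
    (L : ℕ) (D : Finset ℤ) {d1 d2 : ℤ} (hd1 : d1 ∈ D) (hd2 : d2 ∈ D) (hne : d1 ≠ d2) :
    ManyGood (WdF u₁ v₁ u₂ v₂ (d1 - d2)) 2 D.card (kapF u₁ v₁ u₂ v₂) L (fun _ : Fin L => D)
      (vF u₁ v₁ u₂ v₂ L) := by
  classical
  intro m K hm hmK hmW b hb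
  have hmz : NeZero m := ⟨hm.ne'⟩
  have hdd : IsUnit ((d1 - d2 : ℤ) : ZMod m) := isUnit_of_dvd hmW (by
    unfold WdF; exact dvd_mul_of_dvd_left (dvd_mul_right _ _) _)
  have hu1 : IsUnit ((u₁ : ℤ) : ZMod m) := isUnit_of_dvd hmW (by
    unfold WdF
    exact dvd_mul_of_dvd_left (dvd_mul_of_dvd_right
      (dvd_mul_of_dvd_left (dvd_mul_right _ _) _) _) _)
  have hv1 : IsUnit ((v₁ : ℤ) : ZMod m) := isUnit_of_dvd hmW (by
    unfold WdF
    exact dvd_mul_of_dvd_left (dvd_mul_of_dvd_right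
      (dvd_mul_of_dvd_left (dvd_mul_left _ _) _) _) _)
  have hu2 : IsUnit ((u₂ : ℤ) : ZMod m) := isUnit_of_dvd hmW (by
    unfold WdF
    exact dvd_mul_of_dvd_left (dvd_mul_of_dvd_right
      (dvd_mul_of_dvd_right (dvd_mul_right _ _) _) _) _)
  have hv2 : IsUnit ((v₂ : ℤ) : ZMod m) := isUnit_of_dvd hmW (by
    unfold WdF
    exact dvd_mul_of_dvd_left (dvd_mul_of_dvd_right
      (dvd_mul_of_dvd_right (dvd_mul_left _ _) _) _) _)
  have hdet : IsUnit ((v₂ * u₁ - u₂ * v₁ : ℤ) : ZMod m) := isUnit_of_dvd hmW (by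
    unfold WdF; exact dvd_mul_left _ _)
  have hdet' : IsUnit ((v₁ * u₂ - u₁ * v₂ : ℤ) : ZMod m) := by
    have : ((v₁ * u₂ - u₁ * v₂ : ℤ) : ZMod m) = - ((v₂ * u₁ - u₂ * v₁ : ℤ) : ZMod m) := by
      push_cast; ring
    rw [this]
    exact hdet.neg
  set good : Fin L → Prop := fun i =>
    kapF u₁ v₁ u₂ v₂ * m ≤ nn (((d1 - d2) * ∑ l, vF u₁ v₁ u₂ v₂ L i l * b l : ℤ) : ZMod m) with hgood
  refine ⟨univ.filter good, ?_, ?_⟩
  · apply windows (by omega) good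
    intro q hq
    by_contra hcon
    push Not at hcon
    apply hb
    have hqq : (q + 1) * (K + 2) = q * (K + 2) + (K + 2) := by ring
    set x : ZMod m := (((d1 - d2) * b 0 : ℤ) : ZMod m) with hx
    set y : ZMod m := (((d1 - d2) * b 1 : ℤ) : ZMod m) with hy
    have key : ∀ i, q * (K + 2) ≤ i → i ≤ q * (K + 2) + K + 1 →
        2 * ((u₁.natAbs + v₁.natAbs) * ((u₂.natAbs + v₂.natAbs) *
        nn (x * ((u₁ : ZMod m) ^ i * (v₁ : ZMod m) ^ (L - 1 - i)) +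
          y * ((u₂ : ZMod m) ^ i * (v₂ : ZMod m) ^ (L - 1 - i))))) < m := by
      intro i hi1 hi2
      have hlt : i < L := by omega
      have h5 := hcon ⟨i, hlt⟩ hi1 (by show i < (q + 1) * (K + 2); omega)
      rw [hgood] at h5
      simp only [not_le] at h5
      have e1 : (((d1 - d2) * ∑ l, vF u₁ v₁ u₂ v₂ L ⟨i, hlt⟩ l * b l : ℤ) : ZMod m) =
          x * ((u₁ : ZMod m) ^ i * (v₁ : ZMod m) ^ (L - 1 - i)) +
          y * ((u₂ : ZMod m) ^ i * (v₂ : ZMod m) ^ (L - 1 - i)) := by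
        rw [Fin.sum_univ_two]
        simp only [vF, Matrix.cons_val_zero, Matrix.cons_val_one, hx, hy]
        push_cast
        ring
      rw [e1] at h5
      have hC : (0 : ℝ) < ((2 * ((u₁.natAbs + v₁.natAbs) * (u₂.natAbs + v₂.natAbs)) : ℕ) : ℝ) := by
        have := kapF_pos (v₁ := v₁) (v₂ := v₂) h1 h3
        unfold kapF at this
        exact one_div_pos.1 this
      unfold kapF at h5
      rw [one_div, inv_mul_eq_div, lt_div_iff₀ hC] at h5
      have h6 : nn (x * ((u₁ : ZMod m) ^ i * (v₁ : ZMod m) ^ (L - 1 - i)) +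
          y * ((u₂ : ZMod m) ^ i * (v₂ : ZMod m) ^ (L - 1 - i))) *
          (2 * ((u₁.natAbs + v₁.natAbs) * (u₂.natAbs + v₂.natAbs))) < m := by exact_mod_cast h5
      calc _ = nn (x * ((u₁ : ZMod m) ^ i * (v₁ : ZMod m) ^ (L - 1 - i)) +
          y * ((u₂ : ZMod m) ^ i * (v₂ : ZMod m) ^ (L - 1 - i))) *
          (2 * ((u₁.natAbs + v₁.natAbs) * (u₂.natAbs + v₂.natAbs))) := by ring
        _ < m := h6
    have hx0 : x = 0 := form_window K hmK u₁ v₁ u₂ v₂ c1 (two_le_of_ne h1 h2 n1) h3 hu1 hv1 hdet (L - 1)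
      (q * (K + 2)) (by omega) x y key
    have hy0 : y = 0 := form_window K hmK u₂ v₂ u₁ v₁ c2 (two_le_of_ne h3 h4 n2) h1 hu2 hv2 hdet' (L - 1)
      (q * (K + 2)) (by omega) y x (by
        intro i hi1 hi2
        have := key i hi1 hi2
        rw [add_comm (y * _)]
        calc _ = 2 * ((u₁.natAbs + v₁.natAbs) * ((u₂.natAbs + v₂.natAbs) *
              nn (x * ((u₁ : ZMod m) ^ i * (v₁ : ZMod m) ^ (L - 1 - i)) +
                y * ((u₂ : ZMod m) ^ i * (v₂ : ZMod m) ^ (L - 1 - i))))) := by ring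
          _ < m := this)
    intro l
    fin_cases l
    · show (m : ℤ) ∣ b 0
      rw [hx, Int.cast_mul] at hx0
      exact (ZMod.intCast_zmod_eq_zero_iff_dvd _ _).1 ((hdd.mul_right_eq_zero).1 hx0)
    · show (m : ℤ) ∣ b 1
      rw [hy, Int.cast_mul] at hy0
      exact (ZMod.intCast_zmod_eq_zero_iff_dvd _ _).1 ((hdd.mul_right_eq_zero).1 hy0)
  · intro i hi
    exact ⟨le_rfl, d1, hd1, d2, hd2, hne, (mem_filter.1 hi).2⟩

/-! ### signs -/

/-- change of the signs of the two linear maps -/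
def sg {ι : Type} (s : Fin 2 → ℤ) (v : ι → Fin 2 → ℤ) : ι → Fin 2 → ℤ := fun i l => s l * v i l

theorem lin_sg {ι : Type} [Fintype ι] (s : Fin 2 → ℤ) (v : ι → Fin 2 → ℤ) (ω : ι → ℤ) (l : Fin 2) :
    lin (sg s v) ω l = s l * lin v ω l := by
  unfold lin sg
  rw [mul_sum]
  refine sum_congr rfl fun i _ => ?_
  ring

/-- the sign vectors -/
def signs : Finset (Fin 2 → ℤ) := Fintype.piFinset (fun _ : Fin 2 => ({1, -1} : Finset ℤ))

theorem card_signs : signs.card = 4 := by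
  unfold signs
  rw [Fintype.card_piFinset]
  rfl

theorem manyGood_sg {ι : Type} [Fintype ι] {Wd A0 B L : ℕ} {κ : ℝ} {D : ι → Finset ℤ} {v : ι → Fin 2 → ℤ}
    (h : ManyGood Wd A0 B κ L D v) {s : Fin 2 → ℤ} (hs : s ∈ signs) : ManyGood Wd A0 B κ L D (sg s v) := by
  have hs' : ∀ l, s l = 1 ∨ s l = -1 := by
    intro l
    unfold signs at hs
    rw [Fintype.mem_piFinset] at hs
    have := hs l
    rwa [mem_insert, mem_singleton] at this
  intro m K hm hmK hmW b hb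
  obtain ⟨J, hJ, h2⟩ := h m K hm hmK hmW (fun l => s l * b l) (by
    intro hall
    apply hb
    intro l
    have h3 := hall l
    rcases hs' l with h4 | h4 <;> rw [h4] at h3
    · rwa [one_mul] at h3
    · rw [neg_one_mul] at h3
      exact (dvd_neg).1 h3)
  refine ⟨J, hJ, fun i hi => ?_⟩
  obtain ⟨h3, d1, hd1, d2, hd2, hne, h4⟩ := h2 i hi
  refine ⟨h3, d1, hd1, d2, hd2, hne, ?_⟩
  have e1 : ∑ l, sg s v i l * b l = ∑ l, v i l * (s l * b l) := by
    refine sum_congr rfl fun l _ => ?_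
    unfold sg
    ring
  rw [e1]
  exact h4

open Classical in
theorem sign_union {ι : Type} [Fintype ι] [DecidableEq ι] (D : ι → Finset ℤ) (v : ι → Fin 2 → ℤ)
    (P : ℕ → ℕ → Prop) (X : ℝ)
    (h : ∀ s ∈ signs, (((Fintype.piFinset D).filter (fun ω => ∃ A B : ℕ, lin (sg s v) ω 0 = (A : ℤ) ∧
      lin (sg s v) ω 1 = (B : ℤ) ∧ P A B)).card : ℝ) ≤ X) :
    (((Fintype.piFinset D).filter (fun ω => P (lin v ω 0).natAbs (lin v ω 1).natAbs)).card : ℝ) ≤
      4 * X := by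
  have hsub : (Fintype.piFinset D).filter (fun ω => P (lin v ω 0).natAbs (lin v ω 1).natAbs) ⊆
      signs.biUnion (fun s => (Fintype.piFinset D).filter (fun ω => ∃ A B : ℕ,
        lin (sg s v) ω 0 = (A : ℤ) ∧ lin (sg s v) ω 1 = (B : ℤ) ∧ P A B)) := by
    intro ω hω
    rw [mem_filter] at hω
    rw [mem_biUnion]
    refine ⟨fun l => if 0 ≤ lin v ω l then 1 else -1, ?_, ?_⟩
    · unfold signs
      rw [Fintype.mem_piFinset]
      intro l
      split_ifs <;> simp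
    · rw [mem_filter]
      refine ⟨hω.1, _, _, ?_, ?_, hω.2⟩
      · rw [lin_sg]
        split_ifs with h0
        · rw [one_mul, Int.natAbs_of_nonneg h0]
        · rw [neg_one_mul, ← Int.natAbs_neg, Int.natAbs_of_nonneg (by omega)]
      · rw [lin_sg]
        split_ifs with h0
        · rw [one_mul, Int.natAbs_of_nonneg h0]
        · rw [neg_one_mul, ← Int.natAbs_neg, Int.natAbs_of_nonneg (by omega)]
  calc (((Fintype.piFinset D).filter (fun ω => P (lin v ω 0).natAbs (lin v ω 1).natAbs)).card : ℝ)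
      ≤ ((signs.biUnion (fun s => (Fintype.piFinset D).filter (fun ω => ∃ A B : ℕ,
        lin (sg s v) ω 0 = (A : ℤ) ∧ lin (sg s v) ω 1 = (B : ℤ) ∧ P A B))).card : ℝ) := by
        exact_mod_cast card_le_card hsub
    _ ≤ ∑ s ∈ signs, (((Fintype.piFinset D).filter (fun ω => ∃ A B : ℕ,
        lin (sg s v) ω 0 = (A : ℤ) ∧ lin (sg s v) ω 1 = (B : ℤ) ∧ P A B)).card : ℝ) := by
        exact_mod_cast card_biUnion_le
    _ ≤ ∑ _s ∈ signs, X := sum_le_sum h
    _ = 4 * X := by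
        rw [sum_const, card_signs, nsmul_eq_mul]
        norm_num

end Pool.Agent.Y353.FP
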