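import Mathlib
import Pool.Agent.Y353.FP.Form

/-!
Project FP (helper353): Beal's equation for two values of a random binary form.
-/

set_option autoImplicit false

namespace Pool.Agent.Y353.FP

open Finset Filter Topology
open Pool.Agent.TH194.BL Pool.Agent.Y353.FD Pool.Agent.Y353.PS

/-- the conditions on the two points -/
structure Pts (u₁ v₁ u₂ v₂ : ℤ) : Prop where
  c1 : IsCoprime u₁ v₁
  c2 : IsCoprime u₂ v₂
  hu1 : u₁ ≠ 0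
  hv1 : v₁ ≠ 0
  hu2 : u₂ ≠ 0
  hv2 : v₂ ≠ 0
  n1 : u₁.natAbs ≠ v₁.natAbs
  n2 : u₂.natAbs ≠ v₂.natAbs
  ne : u₁ * v₂ ≠ u₂ * v₁

theorem form_setup {u₁ v₁ u₂ v₂ : ℤ} (hp : Pts u₁ v₁ u₂ v₂) {D : Finset ℤ} (hD : 2 ≤ D.card) :
    ∃ (Wd B : ℕ) (κ : ℝ) (G : ℕ), 0 < Wd ∧ 0 < B ∧ 0 < κ ∧ ∀ L : ℕ, ∀ s ∈ signs,
      ManyGood Wd 2 B κ L (fun _ : Fin L => D) (sg s (vF u₁ v₁ u₂ v₂ L)) ∧ (1 ≤ L → ∀ K : ℕ, G ≤ K →
      ∀ ω ∈ Fintype.piFinset (fun _ : Fin L => D), ∀ l,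
        ((lin (sg s (vF u₁ v₁ u₂ v₂ L)) ω l : ℤ) : ℝ) ≤ Real.exp (K * L)) := by
  obtain ⟨d1, hd1, d2, hd2, hd⟩ := one_lt_card.1 (by omega : 1 < D.card)
  set G : ℕ := u₁.natAbs + v₁.natAbs + (u₂.natAbs + v₂.natAbs) + ∑ d ∈ D, d.natAbs with hG
  refine ⟨WdF u₁ v₁ u₂ v₂ (d1 - d2), D.card, kapF u₁ v₁ u₂ v₂, 2 * G + 1,
    WdF_pos hp.hu1 hp.hv1 hp.hu2 hp.hv2 hp.ne (sub_ne_zero.2 hd), by omega, kapF_pos hp.hu1 hp.hu2,
    fun L s hs => ⟨manyGood_sg (manyGood_form hp.c1 hp.c2 hp.hu1 hp.hv1 hp.hu2 hp.hv2 hp.n1 hp.n2 L D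
      hd1 hd2 hd) hs, fun hL K hK => ?_⟩⟩
  apply height (fun _ : Fin L => D) (sg s (vF u₁ v₁ u₂ v₂ L)) (G := G) hL (by rw [Fintype.card_fin]; omega)
    _ _ hK
  · intro i d hd
    have h3 : d.natAbs ≤ ∑ d ∈ D, d.natAbs := single_le_sum (f := fun d : ℤ => d.natAbs)
      (fun _ _ => Nat.zero_le _) hd
    rw [Int.abs_eq_natAbs]
    exact_mod_cast (by omega : d.natAbs ≤ G)
  · intro i l
    have hG1 : 1 ≤ G := by
      have : 0 < u₁.natAbs := Int.natAbs_pos.2 hp.hu1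
      omega
    have key : ∀ t w : ℤ, t.natAbs ≤ G → w.natAbs ≤ G →
        |t ^ (i : ℕ) * w ^ (L - 1 - (i : ℕ))| ≤ (G : ℤ) ^ L := by
      intro t w ht hw
      rw [Int.abs_eq_natAbs, Int.natAbs_mul, Int.natAbs_pow, Int.natAbs_pow]
      have : t.natAbs ^ (i : ℕ) * w.natAbs ^ (L - 1 - (i : ℕ)) ≤ G ^ L := by
        calc t.natAbs ^ (i : ℕ) * w.natAbs ^ (L - 1 - (i : ℕ)) ≤ G ^ (i : ℕ) * G ^ (L - 1 - (i : ℕ)) :=
              Nat.mul_le_mul (Nat.pow_le_pow_left ht _) (Nat.pow_le_pow_left hw _)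
          _ = G ^ ((i : ℕ) + (L - 1 - (i : ℕ))) := (pow_add _ _ _).symm
          _ ≤ G ^ L := Nat.pow_le_pow_right hG1 (by have := i.2; omega)
      exact_mod_cast this
    have hsl : |s l| = 1 := by
      unfold signs at hs
      rw [Fintype.mem_piFinset] at hs
      have := hs l
      rw [mem_insert, mem_singleton] at this
      rcases this with h | h <;> rw [h] <;> simp
    unfold sg
    rw [abs_mul, hsl, one_mul]
    fin_cases l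
    · exact key u₁ v₁ (by omega) (by omega)
    · exact key u₂ v₂ (by omega) (by omega)

theorem card_D (D : Finset ℤ) (L : ℕ) :
    (((Fintype.piFinset (fun _ : Fin L => D)).card : ℕ) : ℝ) = (D.card : ℝ) ^ L := by
  rw [Fintype.card_piFinset, prod_const, card_univ, Fintype.card_fin]
  push_cast
  rfl

theorem absorb {c : ℝ} (hc : 0 < c) (M : ℝ) : ∀ᶠ L : ℕ in atTop,
    M * Real.exp (-c * √(L : ℝ)) ≤ Real.exp (-(c / 2) * √(L : ℝ)) := by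
  have h1 : Tendsto (fun L : ℕ => (c / 2) * √(L : ℝ)) atTop atTop :=
    tendsto_sqrt_nat.const_mul_atTop (by positivity)
  have h2 := (Real.tendsto_exp_atTop.comp h1).eventually_ge_atTop M
  filter_upwards [h2] with L hL
  simp only [Function.comp_apply] at hL
  calc M * Real.exp (-c * √(L : ℝ)) ≤ Real.exp ((c / 2) * √(L : ℝ)) * Real.exp (-c * √(L : ℝ)) :=
        mul_le_mul_of_nonneg_right hL (Real.exp_pos _).le
    _ = Real.exp (-(c / 2) * √(L : ℝ)) := by rw [← Real.exp_add]; congr 1; ring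

/-- few pairs -/
def PFew (K L A B : ℕ) : Prop := 0 < A ∧ 0 < B ∧ Nat.Coprime A B ∧ BadPair K L A B

/-- all solutions -/
def PAll (A B : ℕ) : Prop := 0 < A ∧ 0 < B ∧ Nat.Coprime A B ∧ ∃ x y z C : ℕ, Sol A B x y z C

/-- relations in the semigroup -/
def PExc (Bq : ℕ) (ε : ℝ) (L A B : ℕ) : Prop := ∃ n q : ℕ, q.Prime ∧ q ∣ n ∧ (q : ℝ) ≤ (L : ℝ) ^ Bq ∧
  ![A, B] ∈ Exc 2 n ((L : ℝ) ^ (1 / 2 - ε))

open Classical in
theorem form_few {u₁ v₁ u₂ v₂ : ℤ} (hp : Pts u₁ v₁ u₂ v₂) {D : Finset ℤ} (hD : 2 ≤ D.card) :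
    ∃ c : ℝ, 0 < c ∧ ∀ K : ℕ, ∀ᶠ L : ℕ in atTop,
    (((Fintype.piFinset (fun _ : Fin L => D)).filter (fun ω => PFew K L
        (lin (vF u₁ v₁ u₂ v₂ L) ω 0).natAbs (lin (vF u₁ v₁ u₂ v₂ L) ω 1).natAbs)).card : ℝ) ≤
      Real.exp (-c * √L) * (D.card : ℝ) ^ L := by
  obtain ⟨δ, hδ, hdig⟩ := digital
  obtain ⟨Wd, B, κ, G, hWd, hB, hκ, hgood⟩ := form_setup hp hD
  have hc : 0 < δ * c0 2 B κ := mul_pos hδ (c0_pos 2 hB hκ)
  refine ⟨δ * c0 2 B κ / 2, by positivity, fun K => ?_⟩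
  filter_upwards [hdig 2 B hB κ hκ Wd hWd (max K (G + 1)), absorb hc 4, eventually_ge_atTop 1] with
    L h1 h2 hL1
  have hX : ∀ s ∈ signs, (((Fintype.piFinset (fun _ : Fin L => D)).filter (fun ω => ∃ A B : ℕ,
      lin (sg s (vF u₁ v₁ u₂ v₂ L)) ω 0 = (A : ℤ) ∧ lin (sg s (vF u₁ v₁ u₂ v₂ L)) ω 1 = (B : ℤ) ∧
      PFew K L A B)).card : ℝ) ≤
      Real.exp (-(δ * c0 2 B κ) * √L) * (D.card : ℝ) ^ L := by
    intro s hs
    have h3 := h1 L le_rfl (Nat.le_self_pow (by omega) L) (fun _ : Fin L => D)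
      (sg s (vF u₁ v₁ u₂ v₂ L)) (hgood L s hs).1 ((hgood L s hs).2 hL1 _ (by omega))
    rw [card_D] at h3
    refine le_trans ?_ h3
    apply Nat.cast_le.2
    apply card_le_card
    intro ω hω
    rw [mem_filter] at hω ⊢
    obtain ⟨hωD, A, B₁, h4, h5, h6, h7, h8, h9⟩ := hω
    exact ⟨hωD, A, B₁, h6, h7, h4, h5, h8, h9.mono hL1 (le_max_left _ _)⟩
  have h4 := sign_union (fun _ : Fin L => D) (vF u₁ v₁ u₂ v₂ L)
    (PFew K L) _ hX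
  refine h4.trans ?_
  rw [← mul_assoc]
  apply mul_le_mul_of_nonneg_right _ (by positivity)
  exact h2

open Classical in
theorem form_all {u₁ v₁ u₂ v₂ : ℤ} (hp : Pts u₁ v₁ u₂ v₂) {D : Finset ℤ} (hD : 2 ≤ D.card) {ε : ℝ}
    (hε : 0 < ε) : ∀ᶠ L : ℕ in atTop,
    (((Fintype.piFinset (fun _ : Fin L => D)).filter (fun ω => PAll
        (lin (vF u₁ v₁ u₂ v₂ L) ω 0).natAbs (lin (vF u₁ v₁ u₂ v₂ L) ω 1).natAbs)).card : ℝ) ≤
      ε * (D.card : ℝ) ^ L := by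
  obtain ⟨Wd, B, κ, G, hWd, hB, hκ, hgood⟩ := form_setup hp hD
  filter_upwards [digital_all 2 B hB κ hκ Wd hWd (G + 1) (by omega) (show 0 < ε / 4 by positivity),
    eventually_ge_atTop 1] with L h1 hL1
  have hX : ∀ s ∈ signs, (((Fintype.piFinset (fun _ : Fin L => D)).filter (fun ω => ∃ A B : ℕ,
      lin (sg s (vF u₁ v₁ u₂ v₂ L)) ω 0 = (A : ℤ) ∧ lin (sg s (vF u₁ v₁ u₂ v₂ L)) ω 1 = (B : ℤ) ∧
      PAll A B)).card : ℝ) ≤
      ε / 4 * (D.card : ℝ) ^ L := by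
    intro s hs
    have h3 := h1 L le_rfl (Nat.le_self_pow (by omega) L) (fun _ : Fin L => D)
      (sg s (vF u₁ v₁ u₂ v₂ L)) (hgood L s hs).1 ((hgood L s hs).2 hL1 _ (by omega))
    rw [card_D] at h3
    refine le_trans ?_ h3
    apply Nat.cast_le.2
    apply card_le_card
    intro ω hω
    rw [mem_filter] at hω ⊢
    obtain ⟨hωD, A, B₁, h4, h5, h6, h7, h8, h9⟩ := hω
    exact ⟨hωD, A, B₁, h6, h7, h4, h5, h8, h9⟩
  have h4 := sign_union (fun _ : Fin L => D) (vF u₁ v₁ u₂ v₂ L)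
    PAll _ hX
  refine h4.trans (le_of_eq ?_)
  ring

open Classical in
theorem form_exc {u₁ v₁ u₂ v₂ : ℤ} (hp : Pts u₁ v₁ u₂ v₂) {D : Finset ℤ} (hD : 2 ≤ D.card) :
    ∃ c : ℝ, 0 < c ∧ ∀ (Bq : ℕ) (ε : ℝ), 0 < ε → ∀ᶠ L : ℕ in atTop,
    (((Fintype.piFinset (fun _ : Fin L => D)).filter (fun ω => PExc Bq ε L
        (lin (vF u₁ v₁ u₂ v₂ L) ω 0).natAbs (lin (vF u₁ v₁ u₂ v₂ L) ω 1).natAbs)).card : ℝ) ≤
      Real.exp (-c * √L) * (D.card : ℝ) ^ L := by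
  obtain ⟨δ, hδ, hdig⟩ := digits_excP
  obtain ⟨Wd, B, κ, G, hWd, hB, hκ, hgood⟩ := form_setup hp hD
  have hc : 0 < δ * c0 2 B κ := mul_pos hδ (c0_pos 2 hB hκ)
  refine ⟨δ * c0 2 B κ / 2, by positivity, fun Bq ε hε => ?_⟩
  filter_upwards [hdig 2 2 B hB κ hκ Wd hWd Bq ε hε, absorb hc 4] with L h1 h2
  have hX : ∀ s ∈ signs, (((Fintype.piFinset (fun _ : Fin L => D)).filter (fun ω => ∃ A B : ℕ,
      lin (sg s (vF u₁ v₁ u₂ v₂ L)) ω 0 = (A : ℤ) ∧ lin (sg s (vF u₁ v₁ u₂ v₂ L)) ω 1 = (B : ℤ) ∧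
      PExc Bq ε L A B)).card : ℝ) ≤
      Real.exp (-(δ * c0 2 B κ) * √L) * (D.card : ℝ) ^ L := by
    intro s hs
    have h3 := h1 (fun _ : Fin L => D) (sg s (vF u₁ v₁ u₂ v₂ L)) (hgood L s hs).1
    rw [card_D] at h3
    refine le_trans ?_ h3
    apply Nat.cast_le.2
    apply card_le_card
    intro ω hω
    rw [mem_filter] at hω ⊢
    obtain ⟨hωD, A, B₁, h4, h5, n, q, h6, h7, h8, h9⟩ := hω
    refine ⟨hωD, n, q, h6, h7, h8, ![A, B₁], ?_, h9⟩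
    intro i
    fin_cases i
    · exact h4.symm
    · exact h5.symm
  have h4 := sign_union (fun _ : Fin L => D) (vF u₁ v₁ u₂ v₂ L)
    (PExc Bq ε L) _ hX
  refine h4.trans ?_
  rw [← mul_assoc]
  apply mul_le_mul_of_nonneg_right _ (by positivity)
  exact h2

end Pool.Agent.Y353.FP
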